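import Pool.Agent.helper46.WB.Z2b

/-! WB-Z2 `abelian_three`: three-dimensional abelian subalgebras of `so(4,1)` are unipotent. -/

set_option autoImplicit false
open Matrix MeasureTheory

namespace Pool.Agent.helper21.WB.Z2

theorem skew {A : Mat} (hA : IsSo A) (v w : I → ℝ) : bl (A *ᵥ v) w = - bl v (A *ᵥ w) := by
  unfold IsSo at hA
  have h : Aᵀ * J = - (J * A) := eq_neg_of_add_eq_zero_left hA
  unfold bl
  have e1 : (A *ᵥ v) ⬝ᵥ (J *ᵥ w) = v ⬝ᵥ ((Aᵀ * J) *ᵥ w) := by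
    rw [← Matrix.mulVec_mulVec, Matrix.dotProduct_mulVec v, Matrix.vecMul_transpose]
  rw [e1, h, Matrix.neg_mulVec, dotProduct_neg, Matrix.mulVec_mulVec]

theorem vmv_mulVec (a b v : I → ℝ) : Matrix.vecMulVec a (J *ᵥ b) *ᵥ v = bl b v • a := by
  ext i
  rw [bl_comm]
  simp only [Matrix.mulVec, dotProduct, Matrix.vecMulVec_apply, Pi.smul_apply, smul_eq_mul, bl]
  rw [Finset.sum_mul]
  refine Finset.sum_congr rfl (fun j _ => ?_)
  ring

theorem wedge_mulVec' (ξ w v : I → ℝ) : wedge ξ w *ᵥ v = bl ξ v • w - bl w v • ξ := by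
  rw [wedge, Matrix.sub_mulVec, vmv_mulVec, vmv_mulVec]

theorem mat_ext {A B : Mat} (h : ∀ v : I → ℝ, A *ᵥ v = B *ᵥ v) : A = B := by
  ext i j
  have := congrFun (h (Pi.single j 1)) i
  simpa using this

theorem lor_of_bl {T : Mat} (h : ∀ v w : I → ℝ, bl (T *ᵥ v) (T *ᵥ w) = bl v w) : Tᵀ * J * T = J := by
  ext i j
  have := h (Pi.single i 1) (Pi.single j 1)
  unfold bl at this
  rw [Matrix.mulVec_mulVec, Matrix.dotProduct_mulVec, Matrix.vecMul_mulVec,
    ← Matrix.mul_assoc, ← Matrix.dotProduct_mulVec] at this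
  simpa using this

/-- reflection -/
noncomputable def refl (u : I → ℝ) : Mat := 1 - (2 / bl u u) • Matrix.vecMulVec u (J *ᵥ u)

theorem refl_mulVec (u v : I → ℝ) : refl u *ᵥ v = v - (2 / bl u u * bl u v) • u := by
  rw [refl, Matrix.sub_mulVec, Matrix.one_mulVec, Matrix.smul_mulVec, vmv_mulVec, smul_smul]

theorem refl_bl {u : I → ℝ} (hu : bl u u ≠ 0) (v w : I → ℝ) :
    bl (refl u *ᵥ v) (refl u *ᵥ w) = bl v w := by
  rw [refl_mulVec, refl_mulVec]
  simp only [bl_sub_left, bl_sub_right, bl_smul_left, bl_smul_right]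
  rw [bl_comm v u]
  field_simp
  ring

theorem refl_refl {u : I → ℝ} (hu : bl u u ≠ 0) : refl u * refl u = 1 := by
  apply mat_ext
  intro v
  rw [← Matrix.mulVec_mulVec, refl_mulVec, refl_mulVec, Matrix.one_mulVec]
  simp only [bl_sub_right, bl_smul_right]
  have : 2 / bl u u * (bl u v - 2 / bl u u * bl u v * bl u u) = - (2 / bl u u * bl u v) := by
    field_simp
    ring
  rw [this, neg_smul]
  abel

theorem refl_swap {p q : I → ℝ} (h : bl p p = bl q q) (hne : bl (p - q) (p - q) ≠ 0) :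
    refl (p - q) *ᵥ p = q := by
  rw [refl_mulVec]
  have e : bl (p - q) (p - q) = 2 * bl (p - q) p := by
    simp only [bl_sub_left, bl_sub_right]
    rw [bl_comm q p]; linarith
  have hne' : bl (p - q) p ≠ 0 := by
    intro h0; rw [e, h0] at hne; simp at hne
  have : 2 / bl (p - q) (p - q) * bl (p - q) p = 1 := by
    rw [e]; field_simp
  rw [this, one_smul]; abel

/-- an involutive Lorentz matrix -/
structure Inv (T : Mat) : Prop where
  lor : ∀ v w : I → ℝ, bl (T *ᵥ v) (T *ᵥ w) = bl v w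
  sq : T * T = 1

theorem inv_refl {u : I → ℝ} (hu : bl u u ≠ 0) : Inv (refl u) := ⟨refl_bl hu, refl_refl hu⟩

theorem inv_one : Inv (1 : Mat) := ⟨by simp, by simp⟩

theorem Inv.JT {T : Mat} (hT : Inv T) : Tᵀ * J = J * T := by
  have h := lor_of_bl hT.lor
  calc Tᵀ * J = Tᵀ * J * (T * T) := by rw [hT.sq, Matrix.mul_one]
    _ = J * T := by rw [← Matrix.mul_assoc, h]

theorem Inv.so {T A : Mat} (hT : Inv T) (hA : IsSo A) : IsSo (T * A * T) := by
  unfold IsSo at *
  rw [Matrix.transpose_mul, Matrix.transpose_mul]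
  calc Tᵀ * (Aᵀ * Tᵀ) * J + J * (T * A * T)
      = Tᵀ * (Aᵀ * (Tᵀ * J)) + (J * T) * A * T := by simp only [Matrix.mul_assoc]
    _ = Tᵀ * (Aᵀ * (J * T)) + (Tᵀ * J) * A * T := by rw [hT.JT]
    _ = Tᵀ * (Aᵀ * J + J * A) * T := by
        simp only [Matrix.mul_assoc, Matrix.mul_add, Matrix.add_mul]
    _ = 0 := by rw [hA]; simp

theorem Inv.conj_mul {T : Mat} (hT : Inv T) (A B : Mat) : (T * A * T) * (T * B * T) = T * (A * B) * T := by
  calc (T * A * T) * (T * B * T) = T * A * (T * T) * B * T := by simp only [Matrix.mul_assoc]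
    _ = T * (A * B) * T := by rw [hT.sq]; simp only [Matrix.mul_assoc, Matrix.mul_one, Matrix.one_mul]

theorem Inv.conj_conj {T : Mat} (hT : Inv T) (A : Mat) : T * (T * A * T) * T = A := by
  calc T * (T * A * T) * T = (T * T) * A * (T * T) := by simp only [Matrix.mul_assoc]
    _ = A := by rw [hT.sq, Matrix.one_mul, Matrix.mul_one]

theorem Inv.fam {T : Mat} (hT : Inv T) {A : Fin 3 → Mat} (h : Fam A) : Fam (fun i => T * A i * T) where
  so := fun i => hT.so (h.so i)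
  comm := fun i j => by rw [hT.conj_mul, hT.conj_mul, h.comm]
  li := by
    rw [Fintype.linearIndependent_iff]
    intro c hc
    refine Fintype.linearIndependent_iff.1 h.li c ?_
    have e : T * (∑ i, c i • (T * A i * T)) * T = ∑ i, c i • A i := by
      rw [Finset.mul_sum, Finset.sum_mul]
      refine Finset.sum_congr rfl (fun i _ => ?_)
      rw [Matrix.mul_smul, Matrix.smul_mul, hT.conj_conj]
    rw [← e, hc]; simp

theorem Inv.mulVec {T : Mat} (hT : Inv T) (v : I → ℝ) : T *ᵥ (T *ᵥ v) = v := by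
  rw [Matrix.mulVec_mulVec, hT.sq, Matrix.one_mulVec]

theorem spatial_zero {ξ : I → ℝ} (h : bl ξ ξ = 0) (h0 : ξ o = 0) : ξ = 0 := by
  rw [bl_apply, h0, Fin.sum_univ_four] at h
  have e0 : ξ (Sum.inl 0) = 0 := by nlinarith [mul_self_nonneg (ξ (Sum.inl 0)), mul_self_nonneg (ξ (Sum.inl 1)), mul_self_nonneg (ξ (Sum.inl 2)), mul_self_nonneg (ξ (Sum.inl 3))]
  have e1 : ξ (Sum.inl 1) = 0 := by nlinarith [mul_self_nonneg (ξ (Sum.inl 0)), mul_self_nonneg (ξ (Sum.inl 1)), mul_self_nonneg (ξ (Sum.inl 2)), mul_self_nonneg (ξ (Sum.inl 3))]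
  have e2 : ξ (Sum.inl 2) = 0 := by nlinarith [mul_self_nonneg (ξ (Sum.inl 0)), mul_self_nonneg (ξ (Sum.inl 1)), mul_self_nonneg (ξ (Sum.inl 2)), mul_self_nonneg (ξ (Sum.inl 3))]
  have e3 : ξ (Sum.inl 3) = 0 := by nlinarith [mul_self_nonneg (ξ (Sum.inl 0)), mul_self_nonneg (ξ (Sum.inl 1)), mul_self_nonneg (ξ (Sum.inl 2)), mul_self_nonneg (ξ (Sum.inl 3))]
  ext i
  rcases i with i | i
  · fin_cases i
    · exact e0
    · exact e1
    · exact e2
    · exact e3
  · exact h0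

theorem par_null {ξ η : I → ℝ} (h0 : ξ ≠ 0) (h1 : bl ξ ξ = 0) (h2 : bl η η = 0) (h3 : bl ξ η = 0) :
    ∃ μ : ℝ, η = μ • ξ := by
  have ho : ξ o ≠ 0 := fun h => h0 (spatial_zero h1 h)
  refine ⟨η o / ξ o, ?_⟩
  have hz : η - (η o / ξ o) • ξ = 0 := by
    apply spatial_zero
    · simp only [bl_sub_left, bl_sub_right, bl_smul_left, bl_smul_right]
      rw [bl_comm η ξ, h1, h2, h3]; ring
    · simp only [Pi.sub_apply, Pi.smul_apply, smul_eq_mul]
      field_simp
      ring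
  exact sub_eq_zero.1 hz

theorem sq_zero {A : Mat} (hA : IsSo A) (h : A * A = 0) : A = 0 := by
  have hso := hA
  obtain ⟨a, b, c, d, e, f, u, v, w, z, rfl⟩ := exists_mk hA
  have h0 := congrFun (congrFun h (Sum.inl 0)) (Sum.inl 0)
  have h1 := congrFun (congrFun h (Sum.inl 1)) (Sum.inl 1)
  have h2 := congrFun (congrFun h (Sum.inl 2)) (Sum.inl 2)
  have h3 := congrFun (congrFun h (Sum.inl 3)) (Sum.inl 3)
  have h4 := congrFun (congrFun h o) o
  rw [mul_e] at h0 h1 h2 h3 h4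
  simp at h0 h1 h2 h3 h4
  have hu : u = 0 := by nlinarith [mul_self_nonneg u, mul_self_nonneg v, mul_self_nonneg w, mul_self_nonneg z]
  have hv : v = 0 := by nlinarith [mul_self_nonneg u, mul_self_nonneg v, mul_self_nonneg w, mul_self_nonneg z]
  have hw : w = 0 := by nlinarith [mul_self_nonneg u, mul_self_nonneg v, mul_self_nonneg w, mul_self_nonneg z]
  have hz : z = 0 := by nlinarith [mul_self_nonneg u, mul_self_nonneg v, mul_self_nonneg w, mul_self_nonneg z]
  subst hu hv hw hz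
  have ha : a = 0 := by nlinarith [mul_self_nonneg a, mul_self_nonneg b, mul_self_nonneg c]
  have hb : b = 0 := by nlinarith [mul_self_nonneg a, mul_self_nonneg b, mul_self_nonneg c]
  have hc : c = 0 := by nlinarith [mul_self_nonneg a, mul_self_nonneg b, mul_self_nonneg c]
  subst ha hb hc
  have hd : d = 0 := by nlinarith [mul_self_nonneg d, mul_self_nonneg e]
  have he : e = 0 := by nlinarith [mul_self_nonneg d, mul_self_nonneg e]
  subst hd he
  have hf : f = 0 := by nlinarith [mul_self_nonneg f]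
  subst hf
  apply eq_zero_of hso <;> simp

theorem pf_sub (A B : Mat) : pf (A - B) = (2 : ℝ) • pf A + (2 : ℝ) • pf B - pf (A + B) := by
  ext i
  rcases i with i | i
  · fin_cases i <;> simp [pf] <;> ring
  · simp [pf]; ring

theorem so_neg {A : Mat} (hA : IsSo A) : IsSo (-A) := by
  have := so_smul hA (-1)
  simpa using this

theorem so_sub {A B : Mat} (hA : IsSo A) (hB : IsSo B) : IsSo (A - B) := by
  rw [sub_eq_add_neg]; exact so_add hA (so_neg hB)

/-- two commuting elements with vanishing Pfaffians: the first is proportional or nilpotent -/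
theorem two_pf {A B : Mat} (hA : IsSo A) (hB : IsSo B) (hc : A * B = B * A) (h1 : pf A = 0)
    (h2 : pf B = 0) (h3 : pf (A + B) = 0) (hα : (A * A).trace ≠ 0) : ∃ c : ℝ, B = c • A := by
  have h4 : pf (A - B) = 0 := by rw [pf_sub, h1, h2, h3]; simp
  have c1 := cub hA h1
  have c2 := cub hB h2
  have c3 := cub (so_add hA hB) h3
  have c4 := cub (so_sub hA hB) h4
  set α := (A * A).trace / 2 with hαd
  set β := (B * B).trace / 2 with hβd
  set τ := (A * B).trace with hτd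
  have t3 : ((A + B) * (A + B)).trace / 2 = α + τ + β := by
    rw [Matrix.add_mul, Matrix.mul_add, Matrix.mul_add, Matrix.trace_add, Matrix.trace_add,
      Matrix.trace_add, ← hc]
    rw [hαd, hβd, hτd]; ring
  have t4 : ((A - B) * (A - B)).trace / 2 = α - τ + β := by
    rw [Matrix.sub_mul, Matrix.mul_sub, Matrix.mul_sub, Matrix.trace_sub, Matrix.trace_sub,
      Matrix.trace_sub, ← hc]
    rw [hαd, hβd, hτd]; ring
  rw [t3] at c3
  rw [t4] at c4
  have hAB : Commute A B := hc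
  have e3 : (A + B) * (A + B) * (A + B) = A * A * A + (3 : ℝ) • (A * A * B) + (3 : ℝ) • (A * B * B)
      + B * B * B := by
    have x1 : B * A = A * B := hc.symm
    have x2 : B * A * A = A * A * B := by rw [x1, Matrix.mul_assoc, x1, ← Matrix.mul_assoc]
    have x3 : A * B * A = A * A * B := by rw [Matrix.mul_assoc, x1, ← Matrix.mul_assoc]
    have x4 : B * A * B = A * B * B := by rw [x1]
    have x5 : B * B * A = A * B * B := by rw [Matrix.mul_assoc, x1, ← Matrix.mul_assoc, x1]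
    simp only [Matrix.add_mul, Matrix.mul_add]
    rw [x2, x3, x4, x5]
    module
  have e4 : (A - B) * (A - B) * (A - B) = A * A * A - (3 : ℝ) • (A * A * B) + (3 : ℝ) • (A * B * B)
      - B * B * B := by
    have x1 : B * A = A * B := hc.symm
    have x2 : B * A * A = A * A * B := by rw [x1, Matrix.mul_assoc, x1, ← Matrix.mul_assoc]
    have x3 : A * B * A = A * A * B := by rw [Matrix.mul_assoc, x1, ← Matrix.mul_assoc]
    have x4 : B * A * B = A * B * B := by rw [x1]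
    have x5 : B * B * A = A * B * B := by rw [Matrix.mul_assoc, x1, ← Matrix.mul_assoc, x1]
    simp only [Matrix.sub_mul, Matrix.mul_sub]
    rw [x2, x3, x4, x5]
    module
  rw [e3, c1, c2] at c3
  rw [e4, c1, c2] at c4
  have k1 : (3 : ℝ) • (A * A * B) = τ • A + α • B := by
    have : (6 : ℝ) • (A * A * B) = (2 * τ) • A + (2 * α) • B := by
      have hs : (α • A + (3 : ℝ) • (A * A * B) + (3 : ℝ) • (A * B * B) + β • B)
          - (α • A - (3 : ℝ) • (A * A * B) + (3 : ℝ) • (A * B * B) - β • B)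
          = (α + τ + β) • (A + B) - (α - τ + β) • (A - B) := by rw [c3, c4]
      calc (6 : ℝ) • (A * A * B) = ((α • A + (3 : ℝ) • (A * A * B) + (3 : ℝ) • (A * B * B) + β • B)
          - (α • A - (3 : ℝ) • (A * A * B) + (3 : ℝ) • (A * B * B) - β • B)) - (2 * β) • B := by module
        _ = _ := by rw [hs]; module
    calc (3 : ℝ) • (A * A * B) = (1 / 2 : ℝ) • ((6 : ℝ) • (A * A * B)) := by module
      _ = _ := by rw [this]; module
  -- multiply by `A * A`
  have k2 : (3 * α) • (A * A * B) = (τ * α) • A + α • (A * A * B) := by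
    have hs : (A * A) * ((3 : ℝ) • (A * A * B)) = (A * A) * (τ • A + α • B) := by rw [k1]
    have l : (A * A) * ((3 : ℝ) • (A * A * B)) = (3 * α) • (A * A * B) := by
      rw [Matrix.mul_smul]
      have : (A * A) * (A * A * B) = (A * A * A) * A * B := by simp only [Matrix.mul_assoc]
      rw [this, c1, Matrix.smul_mul, Matrix.smul_mul, smul_smul]
    have r : (A * A) * (τ • A + α • B) = (τ * α) • A + α • (A * A * B) := by
      rw [Matrix.mul_add, Matrix.mul_smul, Matrix.mul_smul, c1, smul_smul]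
    rw [← l, hs, r]
  have hα0 : α ≠ 0 := by rw [hαd]; simpa using hα
  have k3 : A * A * B = (τ / 2) • A := by
    have : (2 * α) • (A * A * B) = (2 * α) • ((τ / 2) • A) := by
      calc (2 * α) • (A * A * B) = (3 * α) • (A * A * B) - α • (A * A * B) := by module
        _ = _ := by rw [k2]; module
    have h2α : (2 * α) ≠ 0 := by simpa using hα0
    exact smul_right_injective _ h2α this
  refine ⟨τ / 2 / α, ?_⟩
  have : α • B = α • ((τ / 2 / α) • A) := by
    calc α • B = (3 : ℝ) • (A * A * B) - τ • A := by rw [k1]; module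
      _ = α • ((τ / 2 / α) • A) := by
        rw [k3, smul_smul, smul_smul, ← sub_smul]
        congr 1
        field_simp
        ring
  exact smul_right_injective _ hα0 this

theorem step1 {A : Fin 3 → Mat} (h : Fam A) :
    (∃ x : I → ℝ, bl x x ≠ 0 ∧ ∀ i, A i *ᵥ x = 0) ∨
    (∃ ξ : I → ℝ, ξ ≠ 0 ∧ bl ξ ξ = 0 ∧ ∀ i, ∃ μ : ℝ, A i *ᵥ ξ = μ • ξ) := by
  have hx : ∀ B : Mat, IsSo B → (∀ i, A i * B = B * A i) → pf B ≠ 0 →
      (∃ x : I → ℝ, bl x x ≠ 0 ∧ ∀ i, A i *ᵥ x = 0) ∨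
      (∃ ξ : I → ℝ, ξ ≠ 0 ∧ bl ξ ξ = 0 ∧ ∀ i, ∃ μ : ℝ, A i *ᵥ ξ = μ • ξ) := by
    intro B hB hc h0
    by_cases hb : bl (pf B) (pf B) = 0
    · exact Or.inr ⟨pf B, h0, hb, fun i => ⟨0, by rw [pf_kill hB (h.so i) (hc i), zero_smul]⟩⟩
    · exact Or.inl ⟨pf B, hb, fun i => pf_kill hB (h.so i) (hc i)⟩
  by_cases h0 : pf (A 0) = 0
  swap
  · exact hx (A 0) (h.so 0) (fun i => h.comm i 0) h0
  by_cases h1 : pf (A 1) = 0
  swap
  · exact hx (A 1) (h.so 1) (fun i => h.comm i 1) h1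
  by_cases h2 : pf (A 0 + A 1) = 0
  swap
  · exact hx (A 0 + A 1) (so_add (h.so 0) (h.so 1))
      (fun i => by rw [Matrix.mul_add, Matrix.add_mul, h.comm i 0, h.comm i 1]) h2
  by_cases hα : (A 0 * A 0).trace = 0
  swap
  · exfalso
    obtain ⟨c, hc⟩ := two_pf (h.so 0) (h.so 1) (h.comm 0 1) h0 h1 h2 hα
    have := Fintype.linearIndependent_iff.1 h.li ![-c, 1, 0] (by
      rw [Fin.sum_univ_three]
      simp [hc]) 1
    simp at this
  right
  have hcube : A 0 * A 0 * A 0 = 0 := by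
    rw [cub (h.so 0) h0, hα]; simp
  have hne0 : A 0 ≠ 0 := h.li.ne_zero 0
  have hsq : A 0 * A 0 ≠ 0 := fun h' => hne0 (sq_zero (h.so 0) h')
  have hex : ∃ e : I → ℝ, (A 0 * A 0) *ᵥ e ≠ 0 := by
    by_contra hall
    push Not at hall
    exact hsq (mat_ext (fun v => by rw [hall v, Matrix.zero_mulVec]))
  obtain ⟨e, he⟩ := hex
  have horth : ∀ x y : I → ℝ, bl ((A 0 * A 0) *ᵥ x) ((A 0 * A 0) *ᵥ y) = 0 := by
    intro x y
    rw [← Matrix.mulVec_mulVec x, skew (h.so 0), Matrix.mulVec_mulVec, ← Matrix.mul_assoc, hcube,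
      Matrix.zero_mulVec]
    simp [bl]
  refine ⟨(A 0 * A 0) *ᵥ e, he, horth e e, fun i => ?_⟩
  have hcm : A i * (A 0 * A 0) = (A 0 * A 0) * A i := by
    rw [← Matrix.mul_assoc, h.comm i 0, Matrix.mul_assoc, h.comm i 0, ← Matrix.mul_assoc]
  have e1 : A i *ᵥ ((A 0 * A 0) *ᵥ e) = (A 0 * A 0) *ᵥ (A i *ᵥ e) := by
    rw [Matrix.mulVec_mulVec, hcm, ← Matrix.mulVec_mulVec]
  rw [e1]
  exact par_null he (horth _ _) (horth _ _) (horth _ _)

/-- the three standard vectors -/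
noncomputable def eT : I → ℝ := Sum.elim ![0, 0, 0, 0] (fun _ => 1)
noncomputable def eS : I → ℝ := Sum.elim ![1, 0, 0, 0] (fun _ => 0)
noncomputable def eN : I → ℝ := Sum.elim ![1, 0, 0, 0] (fun _ => 1)

theorem bl_eT : bl eT eT = -1 := by rw [bl_apply, Fin.sum_univ_four]; simp [eT]
theorem bl_eS : bl eS eS = 1 := by rw [bl_apply, Fin.sum_univ_four]; simp [eS]
theorem bl_eN : bl eN eN = 0 := by rw [bl_apply, Fin.sum_univ_four]; simp [eN]

theorem normalize_aux {x e : I → ℝ} (h : bl x x = bl e e) (hx : bl x x ≠ 0) :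
    ∃ T : Mat, Inv T ∧ ∃ c : ℝ, c ≠ 0 ∧ T *ᵥ x = c • e := by
  by_cases h1 : bl (x - e) (x - e) = 0
  · have h2 : bl (x - (-1 : ℝ) • e) (x - (-1 : ℝ) • e) ≠ 0 := by
      intro h2
      simp only [bl_sub_left, bl_sub_right, bl_smul_left, bl_smul_right] at h1 h2
      apply hx
      rw [bl_comm e x] at h1 h2
      linarith
    refine ⟨refl (x - (-1 : ℝ) • e), inv_refl h2, -1, by norm_num, refl_swap ?_ h2⟩
    rw [bl_smul_left, bl_smul_right, h]; ring
  · exact ⟨refl (x - e), inv_refl h1, 1, one_ne_zero, by rw [refl_swap h h1, one_smul]⟩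

theorem normalize_non {x : I → ℝ} (hx : bl x x ≠ 0) :
    ∃ T : Mat, Inv T ∧ ∃ c : ℝ, c ≠ 0 ∧ (T *ᵥ x = c • eT ∨ T *ᵥ x = c • eS) := by
  rcases lt_or_gt_of_ne hx with h | h
  · set s := Real.sqrt (-(bl x x)) with hs
    have hs2 : s * s = -(bl x x) := Real.mul_self_sqrt (by linarith)
    have hs0 : s ≠ 0 := by
      intro h0; rw [h0] at hs2; apply hx; linarith
    obtain ⟨T, hT, c, hc, hTx⟩ := normalize_aux (x := x) (e := s • eT)
      (by rw [bl_smul_left, bl_smul_right, bl_eT]; linarith) hx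
    exact ⟨T, hT, c * s, mul_ne_zero hc hs0, Or.inl (by rw [hTx, smul_smul])⟩
  · set s := Real.sqrt (bl x x) with hs
    have hs2 : s * s = bl x x := Real.mul_self_sqrt (by linarith)
    have hs0 : s ≠ 0 := by
      intro h0; rw [h0] at hs2; apply hx; linarith
    obtain ⟨T, hT, c, hc, hTx⟩ := normalize_aux (x := x) (e := s • eS)
      (by rw [bl_smul_left, bl_smul_right, bl_eS]; linarith) hx
    exact ⟨T, hT, c * s, mul_ne_zero hc hs0, Or.inr (by rw [hTx, smul_smul])⟩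

theorem eN_ne : eN ≠ 0 := by
  intro h
  have := congrFun h o
  simp [eN] at this

theorem normalize_null {ξ : I → ℝ} (h0 : ξ ≠ 0) (h : bl ξ ξ = 0) :
    ∃ T : Mat, Inv T ∧ ∃ c : ℝ, c ≠ 0 ∧ T *ᵥ ξ = c • eN := by
  by_cases h1 : bl ξ eN = 0
  · obtain ⟨μ, hμ⟩ := par_null eN_ne bl_eN h (by rw [bl_comm]; exact h1)
    refine ⟨1, inv_one, μ, ?_, by rw [Matrix.one_mulVec, hμ]⟩
    rintro rfl
    exact h0 (by rw [hμ, zero_smul])
  · have h2 : bl (ξ - eN) (ξ - eN) ≠ 0 := by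
      simp only [bl_sub_left, bl_sub_right]
      rw [h, bl_eN, bl_comm eN ξ]
      intro h3
      apply h1; linarith
    exact ⟨refl (ξ - eN), inv_refl h2, 1, one_ne_zero, by rw [refl_swap (by rw [h, bl_eN]) h2, one_smul]⟩

/-- no common non-isotropic kernel vector -/
theorem no_kernel {A : Fin 3 → Mat} (h : Fam A) {x : I → ℝ} (hx : bl x x ≠ 0)
    (hk : ∀ i, A i *ᵥ x = 0) : False := by
  obtain ⟨T, hT, c, hc, hTx⟩ := normalize_non hx
  have hF := hT.fam h
  have key : ∀ e : I → ℝ, T *ᵥ x = c • e → ∀ i, (T * A i * T) *ᵥ e = 0 := by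
    intro e he i
    have : e = c⁻¹ • (T *ᵥ x) := by rw [he, smul_smul, inv_mul_cancel₀ hc, one_smul]
    rw [this, Matrix.mulVec_smul, ← Matrix.mulVec_mulVec, ← Matrix.mulVec_mulVec, hT.mulVec, hk,
      Matrix.mulVec_zero, smul_zero]
  rcases hTx with h1 | h1
  · refine no_time hF (fun i k => ?_)
    have := congrFun (key _ h1 i) (Sum.inl k)
    rw [mulVec_e] at this
    simpa [eT] using this
  · refine no_space hF (fun i k => ?_)
    have := congrFun (key _ h1 i) k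
    rw [mulVec_e] at this
    simpa [eS] using this

/-- linear parametrisation of the translations -/
noncomputable def N : (Fin 3 → ℝ) →ₗ[ℝ] Mat where
  toFun x := mk (x 0) (x 1) (x 2) 0 0 0 0 (x 0) (x 1) (x 2)
  map_add' x y := by
    apply ext_I
    · intro i j
      fin_cases i <;> fin_cases j <;> simp <;> ring
    · intro i
      fin_cases i <;> simp
    · intro i
      fin_cases i <;> simp
    · simp
  map_smul' c x := by
    apply ext_I
    · intro i j
      fin_cases i <;> fin_cases j <;> simp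
    · intro i
      fin_cases i <;> simp
    · intro i
      fin_cases i <;> simp
    · simp

theorem N_apply (x : Fin 3 → ℝ) : N x = mk (x 0) (x 1) (x 2) 0 0 0 0 (x 0) (x 1) (x 2) := rfl

theorem centralizer {A : Fin 3 → Mat} (h : Fam A)
    (hf : ∀ i, ∃ v w z : ℝ, A i = mk v w z 0 0 0 0 v w z) {B : Mat} (hB : IsSo B)
    (hc : ∀ i, B * A i = A i * B) : ∃ x : Fin 3 → ℝ, B = N x := by
  choose v w z hA using hf
  let x : Fin 3 → Fin 3 → ℝ := fun i => ![v i, w i, z i]
  have hNx : ∀ i, N (x i) = A i := fun i => by rw [hA i, N_apply]; simp [x]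
  have hli : LinearIndependent ℝ x := by
    have : LinearIndependent ℝ (N ∘ x) := by
      convert h.li using 1
      ext1 i; exact hNx i
    exact LinearIndependent.of_comp N this
  have hspan : Submodule.span ℝ (Set.range x) = ⊤ :=
    hli.span_eq_top_of_card_eq_finrank' (by simp)
  have hall : ∀ y : Fin 3 → ℝ, B * N y = N y * B := by
    intro y
    have hy : y ∈ Submodule.span ℝ (Set.range x) := by rw [hspan]; trivial
    induction hy using Submodule.span_induction with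
    | mem y hy =>
      obtain ⟨i, rfl⟩ := hy
      rw [hNx]; exact hc i
    | zero => simp
    | add y y' _ _ h1 h2 => rw [map_add, Matrix.mul_add, Matrix.add_mul, h1, h2]
    | smul c y _ h1 => rw [map_smul, Matrix.mul_smul, Matrix.smul_mul, h1]
  obtain ⟨a, b, c, d, e, f, u, v', w', z', rfl⟩ := exists_mk hB
  have H1 := hall ![1, 0, 0]
  have H2 := hall ![0, 1, 0]
  have H3 := hall ![0, 0, 1]
  rw [N_apply] at H1 H2 H3
  simp at H1 H2 H3
  have a1 := comm_e H1 (Sum.inl 0) (Sum.inl 1)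
  have a2 := comm_e H1 (Sum.inl 0) (Sum.inl 2)
  have a3 := comm_e H1 (Sum.inl 0) (Sum.inl 3)
  have a4 := comm_e H1 (Sum.inl 1) (Sum.inl 2)
  have a5 := comm_e H1 (Sum.inl 1) (Sum.inl 3)
  have a6 := comm_e H1 (Sum.inl 2) (Sum.inl 3)
  have a7 := comm_e H1 (Sum.inl 0) o
  have a8 := comm_e H1 (Sum.inl 1) o
  have b4 := comm_e H2 (Sum.inl 1) (Sum.inl 2)
  have b5 := comm_e H2 (Sum.inl 1) (Sum.inl 3)
  have b6 := comm_e H2 (Sum.inl 2) (Sum.inl 3)
  have b7 := comm_e H2 (Sum.inl 0) o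
  have b2 := comm_e H2 (Sum.inl 0) (Sum.inl 3)
  have b1 := comm_e H2 (Sum.inl 0) (Sum.inl 1)
  have c7 := comm_e H3 (Sum.inl 0) o
  have c1 := comm_e H3 (Sum.inl 0) (Sum.inl 2)
  have c2 := comm_e H3 (Sum.inl 0) (Sum.inl 1)
  simp at a1 a2 a3 a4 a5 a6 a7 a8 b1 b2 b4 b5 b6 b7 c1 c2 c7
  refine ⟨![v', w', z'], ?_⟩
  rw [N_apply]
  simp
  have e1 : a = v' := by linarith
  have e2 : b = w' := by linarith
  have e3 : c = z' := by linarith
  have e4 : d = 0 := by linarith
  have e5 : e = 0 := by linarith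
  have e6 : f = 0 := by linarith
  have e7 : u = 0 := by linarith
  rw [e1, e2, e3, e4, e5, e6, e7]

theorem N_wedge (x : Fin 3 → ℝ) : N x = wedge eN (Sum.elim ![0, - x 0, - x 1, - x 2] (fun _ => 0)) := by
  have hJ : ∀ v : I → ℝ, J *ᵥ v = Sum.elim (fun i => v (Sum.inl i)) (fun _ => - v o) := by
    intro v
    ext i
    rcases i with i | i
    · simp [J, Matrix.mulVec, dotProduct, Fintype.sum_sum_type, Matrix.one_apply]
    · simp [J, Matrix.mulVec, dotProduct, Fintype.sum_sum_type]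
  rw [N_apply, wedge, hJ, hJ]
  apply ext_I
  · intro i j
    fin_cases i <;> fin_cases j <;> simp [Matrix.vecMulVec_apply, eN]
  · intro i
    fin_cases i <;> simp [Matrix.vecMulVec_apply, eN]
  · intro i
    fin_cases i <;> simp [Matrix.vecMulVec_apply, eN]
  · simp [Matrix.vecMulVec_apply, eN]

theorem wedge_conj {T : Mat} (hT : Inv T) (ξ w : I → ℝ) :
    T * wedge ξ w * T = wedge (T *ᵥ ξ) (T *ᵥ w) := by
  apply mat_ext
  intro v
  rw [← Matrix.mulVec_mulVec, ← Matrix.mulVec_mulVec, wedge_mulVec', wedge_mulVec',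
    Matrix.mulVec_sub, Matrix.mulVec_smul, Matrix.mulVec_smul]
  have h1 : ∀ y : I → ℝ, bl (T *ᵥ y) v = bl y (T *ᵥ v) := by
    intro y
    rw [← hT.lor y (T *ᵥ v), hT.mulVec]
  rw [h1, h1]

theorem wedge_smul (c : ℝ) (ξ w : I → ℝ) : wedge (c • ξ) w = wedge ξ (c • w) := by
  apply mat_ext
  intro v
  rw [wedge_mulVec', wedge_mulVec', bl_smul_left, bl_smul_left, smul_smul, smul_smul, mul_comm c, mul_comm c]

end Z2

/-- [Z2] Abelian subalgebras of `so(4,1)` of dimension three are unipotent. -/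
theorem abelian_three {A : Fin 3 → Mat} (hA : ∀ i, IsSo (A i)) (hc : ∀ i j, A i * A j = A j * A i)
    (hli : LinearIndependent ℝ A) :
    ∃ ξ : I → ℝ, NullF ξ ∧ ∀ B : Mat, IsSo B → (∀ i, B * A i = A i * B) →
      ∃ w : I → ℝ, bl ξ w = 0 ∧ B = wedge ξ w := by
  have h : Z2.Fam A := ⟨hA, hc, hli⟩
  rcases Z2.step1 h with ⟨x, hx, hk⟩ | ⟨ξ, h0, h1, hk⟩
  · exact (Z2.no_kernel h hx hk).elim
  obtain ⟨T, hT, c, hc0, hTx⟩ := Z2.normalize_null h0 h1
  have hF := hT.fam h
  have hTe : T *ᵥ Z2.eN = c⁻¹ • ξ := by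
    have : Z2.eN = c⁻¹ • (T *ᵥ ξ) := by rw [hTx, smul_smul, inv_mul_cancel₀ hc0, one_smul]
    rw [this, Matrix.mulVec_smul, hT.mulVec]
  have hnf := Z2.null_form hF (fun i => by
    obtain ⟨μ, hμ⟩ := hk i
    refine ⟨μ, ?_⟩
    show (T * A i * T) *ᵥ Z2.eN = μ • Z2.eN
    rw [← Matrix.mulVec_mulVec, hTe, Matrix.mulVec_smul, ← Matrix.mulVec_mulVec, hμ,
      Matrix.mulVec_smul, hTx, smul_smul, smul_smul]
    congr 1
    field_simp)
  have hξo : ξ o ≠ 0 := fun h' => h0 (Z2.spatial_zero h1 h')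
  obtain ⟨σ, hσ, hσξ⟩ : ∃ σ : ℝ, σ ≠ 0 ∧ 0 < (σ • ξ) o := by
    rcases lt_or_gt_of_ne hξo with h' | h'
    · exact ⟨-1, by norm_num, by simpa using h'⟩
    · exact ⟨1, one_ne_zero, by simpa using h'⟩
  refine ⟨σ • ξ, ⟨by rw [bl_smul_left, bl_smul_right, h1]; ring, hσξ⟩, fun B hB hBc => ?_⟩
  obtain ⟨x, hx⟩ := Z2.centralizer hF hnf (hT.so hB) (fun i => by
    rw [hT.conj_mul, hT.conj_mul, hBc])
  have hBx : B = T * Z2.N x * T := by rw [← hx, hT.conj_conj]
  rw [Z2.N_wedge, Z2.wedge_conj hT, hTe] at hBx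
  set w0 : I → ℝ := Sum.elim ![0, - x 0, - x 1, - x 2] (fun _ => 0) with hw0
  refine ⟨(σ⁻¹ * c⁻¹) • (T *ᵥ w0), ?_, ?_⟩
  · have h2 : bl ξ (T *ᵥ w0) = 0 := by
      have : bl (T *ᵥ Z2.eN) (T *ᵥ w0) = 0 := by
        rw [hT.lor, bl_apply, Fin.sum_univ_four]
        simp [Z2.eN, hw0]
      rw [hTe, bl_smul_left] at this
      exact (mul_eq_zero.1 this).resolve_left (inv_ne_zero hc0)
    rw [bl_smul_left, bl_smul_right, h2]; ring
  · rw [hBx, Z2.wedge_smul, Z2.wedge_smul, smul_smul]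
    congr 2
    field_simp

end Pool.Agent.helper21.WB
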