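import Pool.Agent.helper21.WB.LibB
import Pool.Agent.helper21.WB.HB
import Pool.Agent.H48.WB.Z3
import Pool.Agent.helper69.WB.Z1
import Pool.Agent.helper46.WB.Z2

/-! WB-H1 `exists_horo`: the deep part is a union of disjoint horoballs. -/

set_option autoImplicit false
open Matrix MeasureTheory

namespace Pool.Agent.helper21.WB
namespace H1

/-- unipotent matrix in direction `ξ` -/
def IsU (ξ w : I → ℝ) (γ : GLI) : Prop :=
  bl ξ w = 0 ∧ γ.val = 1 + wedge ξ w + (1 / 2 : ℝ) • (wedge ξ w * wedge ξ w)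

theorem Yg_of_isU {ξ w : I → ℝ} {γ : GLI} (h1 : bl ξ ξ = 0) (h : IsU ξ w γ) : Yg γ = wedge ξ w := by
  obtain ⟨hw, hγ⟩ := h
  set Y := wedge ξ w with hYd
  have c3 : Y * Y * Y = 0 := Z3.cube h1 hw
  have hDDi : γ.val * (1 - Y + (1 / 2 : ℝ) • (Y * Y)) = 1 := by
    rw [hγ]
    simp only [Matrix.add_mul, Matrix.mul_add, Matrix.mul_sub, Matrix.one_mul,
      Matrix.mul_one, Matrix.smul_mul, Matrix.mul_smul]
    rw [← Matrix.mul_assoc Y Y Y, ← Matrix.mul_assoc (Y * Y) Y Y, c3]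
    simp only [Matrix.zero_mul, smul_zero, add_zero]
    have : (Y * Y : Mat) = (1 / 2 : ℝ) • (Y * Y) + (1 / 2 : ℝ) • (Y * Y) := by
      rw [← add_smul]; norm_num
    have h2 : (1:Mat) + Y + (1 / 2 : ℝ) • (Y * Y) - (Y + Y * Y) + (1 / 2 : ℝ) • (Y * Y)
        = 1 + ((1 / 2 : ℝ) • (Y * Y) + (1 / 2 : ℝ) • (Y * Y)) - Y * Y := by abel
    have h3 : (1:Mat) + ((1 / 2 : ℝ) • (Y * Y) + (1 / 2 : ℝ) • (Y * Y)) - Y * Y = 1 := by
      rw [← this]; abel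
    rw [h2, h3]
  have hi1 : (γ⁻¹ : GLI).val * γ.val = 1 := by
    rw [← Units.val_mul, inv_mul_cancel, Units.val_one]
  have hinv : (γ⁻¹ : GLI).val = 1 - Y + (1 / 2 : ℝ) • (Y * Y) := by
    calc (γ⁻¹ : GLI).val = (γ⁻¹ : GLI).val * (γ.val * (1 - Y + (1 / 2 : ℝ) • (Y * Y))) := by
          rw [hDDi, Matrix.mul_one]
      _ = 1 - Y + (1 / 2 : ℝ) • (Y * Y) := by rw [← Matrix.mul_assoc, hi1, Matrix.one_mul]
  unfold Yg
  rw [hinv, hγ]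
  module

theorem hb_sq (ξ : I → ℝ) (y : X) : (bl ξ (lift y)) ^ 2 = hb ξ y ^ 2 := by
  unfold hb; ring

theorem sm_of_isU {ξ w : I → ℝ} {γ : GLI} (h1 : bl ξ ξ = 0) (h : IsU ξ w γ) (y : X) :
    sm y γ = Real.sqrt (4 * (hb ξ y ^ 2 * bl w w) + (hb ξ y ^ 2 * bl w w) ^ 2) := by
  have e : γ.val - 1 = wedge ξ w + (1 / 2 : ℝ) • (wedge ξ w * wedge ξ w) := by
    rw [h.2]; abel
  have h2 : sm y γ = Real.sqrt (Matrix.trace (Qf y * (γ.val - 1)ᵀ * Pf y * (γ.val - 1))) := rfl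
  rw [h2, e, Z3.trace_form h1 h.1]
  congr 1
  have : (bl ξ (lift y)) ^ 4 = ((bl ξ (lift y)) ^ 2) ^ 2 := by ring
  rw [this, hb_sq]; ring

/-- vectors orthogonal to a null vector are not timelike -/
theorem orth_nonneg {ξ w : I → ℝ} (h : NullF ξ) (hw : bl ξ w = 0) : 0 ≤ bl w w := by
  by_contra hlt
  push Not at hlt
  have hwo : w o ≠ 0 := by
    intro h0
    rw [bl_apply, h0] at hlt
    have : 0 ≤ ∑ i : Fin 4, w (Sum.inl i) * w (Sum.inl i) :=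
      Finset.sum_nonneg fun i _ => mul_self_nonneg _
    linarith
  rcases lt_or_gt_of_ne hwo with h' | h'
  · have := bl_neg (v := (-1 : ℝ) • w) (w := ξ) (by rw [bl_smul_left, bl_smul_right]; linarith)
      (by simpa using h') (by rw [h.1]) h.2
    rw [bl_smul_left, bl_comm, hw] at this
    linarith
  · have := bl_neg (v := w) (w := ξ) hlt h' (by rw [h.1]) h.2
    rw [bl_comm, hw] at this
    linarith

theorem wedge_self (ξ : I → ℝ) (c : ℝ) : wedge ξ (c • ξ) = 0 := by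
  apply Z2.mat_ext
  intro v
  rw [Z2.wedge_mulVec', Matrix.zero_mulVec, bl_smul_left, smul_smul]
  rw [← sub_smul]
  simp [mul_comm]

theorem nullF_ne {ξ : I → ℝ} (h : NullF ξ) : ξ ≠ 0 := by
  rintro rfl
  simpa using h.2

theorem orth_pos {ξ w : I → ℝ} (h : NullF ξ) (hw : bl ξ w = 0) (hne : wedge ξ w ≠ 0) : 0 < bl w w := by
  rcases (orth_nonneg h hw).lt_or_eq with h' | h'
  · exact h'
  · exfalso
    obtain ⟨μ, hμ⟩ := Z2.par_null (nullF_ne h) h.1 h'.symm hw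
    exact hne (by rw [hμ, wedge_self])

/-- comparison of norms of two unipotents in the same direction -/
theorem sqrt_le_iff {B B' : ℝ} (h : 0 ≤ B) (h' : 0 ≤ B') :
    Real.sqrt (4 * B + B ^ 2) ≤ Real.sqrt (4 * B' + B' ^ 2) ↔ B ≤ B' := by
  rw [Real.sqrt_le_sqrt_iff (by positivity)]
  constructor
  · intro hle
    by_contra hlt
    push Not at hlt
    nlinarith
  · intro hle
    nlinarith

theorem sm_le_iff {ξ w w' : I → ℝ} {γ γ' : GLI} (hξ : NullF ξ) (h : IsU ξ w γ) (h' : IsU ξ w' γ') (y : X) :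
    sm y γ ≤ sm y γ' ↔ bl w w ≤ bl w' w' := by
  have hbp := hb_pos hξ y
  have h1 := orth_nonneg hξ h.1
  have h1' := orth_nonneg hξ h'.1
  rw [sm_of_isU hξ.1 h, sm_of_isU hξ.1 h', sqrt_le_iff (by positivity) (by positivity)]
  have : 0 < hb ξ y ^ 2 := by positivity
  exact mul_le_mul_iff_right₀ this

/-- three independent translations of `Γ` in direction `ξ` -/
structure Tri (Γ : Subgroup GLI) (ξ : I → ℝ) (γ : Fin 3 → GLI) (w : Fin 3 → I → ℝ) : Prop where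
  mem : ∀ i, γ i ∈ Γ
  isU : ∀ i, IsU ξ (w i) (γ i)
  li : LinearIndependent ℝ (fun i => Yg (γ i))

theorem Tri.pos {Γ : Subgroup GLI} {ξ : I → ℝ} {γ : Fin 3 → GLI} {w : Fin 3 → I → ℝ}
    (hξ : NullF ξ) (h : Tri Γ ξ γ w) (i : Fin 3) : 0 < bl (w i) (w i) := by
  refine orth_pos hξ (h.isU i).1 ?_
  rw [← Yg_of_isU hξ.1 (h.isU i)]
  exact h.li.ne_zero i

theorem wedge_scale {c : ℝ} (hc : c ≠ 0) (ξ w : I → ℝ) : wedge (c • ξ) (c⁻¹ • w) = wedge ξ w := by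
  rw [Z2.wedge_smul, smul_smul, mul_inv_cancel₀ hc, one_smul]

theorem IsU.scale {ξ w : I → ℝ} {γ : GLI} (h : IsU ξ w γ) {c : ℝ} (hc : c ≠ 0) :
    IsU (c • ξ) (c⁻¹ • w) γ := by
  refine ⟨by rw [bl_smul_left, bl_smul_right, h.1]; ring, ?_⟩
  rw [wedge_scale hc, h.2]

theorem Tri.scale {Γ : Subgroup GLI} {ξ : I → ℝ} {γ : Fin 3 → GLI} {w : Fin 3 → I → ℝ}
    (h : Tri Γ ξ γ w) {c : ℝ} (hc : c ≠ 0) : Tri Γ (c • ξ) γ (fun i => c⁻¹ • w i) :=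
  ⟨h.mem, fun i => (h.isU i).scale hc, h.li⟩

/-- normalised minimal triple, `m` the third minimum -/
structure Nor (Γ : Subgroup GLI) (m : ℝ) (ξ : I → ℝ) (γ : Fin 3 → GLI) (w : Fin 3 → I → ℝ) : Prop
    extends Tri Γ ξ γ w where
  le : ∀ i, bl (w i) (w i) ≤ m
  eq : ∃ i, bl (w i) (w i) = m
  min : ∀ (δ : Fin 3 → GLI) (v : Fin 3 → I → ℝ), Tri Γ ξ δ v → ∃ i, m ≤ bl (v i) (v i)

/-- the family of horoballs -/
def Xi (Γ : Subgroup GLI) (m : ℝ) : Set (I → ℝ) := {ξ | NullF ξ ∧ ∃ γ w, Nor Γ m ξ γ w}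

theorem exists_nor {Γ : Subgroup GLI} (hΓ : Disc Γ) {m : ℝ} (hm : 0 < m) {ξ : I → ℝ} (hξ : NullF ξ)
    {δ₀ : Fin 3 → GLI} {v₀ : Fin 3 → I → ℝ} (h0 : Tri Γ ξ δ₀ v₀) :
    ∃ c : ℝ, 0 < c ∧ c • ξ ∈ Xi Γ m := by
  classical
  let f : (Fin 3 → GLI) → ℝ := fun δ => Finset.univ.sup' ⟨0, Finset.mem_univ _⟩ (fun i => sm 0 (δ i))
  let S : Set (Fin 3 → GLI) := {δ | (∃ v, Tri Γ ξ δ v) ∧ ∀ i, sm 0 (δ i) ≤ f δ₀}
  have hS : S.Finite := by
    refine (Set.Finite.pi' (fun _ : Fin 3 => Z1.finite_sm hΓ 0 (f δ₀))).subset ?_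
    rintro δ ⟨⟨v, hv⟩, hle⟩ i
    exact ⟨hv.mem i, hle i⟩
  have hne : S.Nonempty := ⟨δ₀, ⟨v₀, h0⟩, fun i => Finset.le_sup' (fun i => sm 0 (δ₀ i)) (Finset.mem_univ i)⟩
  obtain ⟨δ, ⟨⟨v, hv⟩, hle⟩, hmin⟩ := Set.exists_min_image S f hS hne
  have hmin' : ∀ (δ' : Fin 3 → GLI) (v' : Fin 3 → I → ℝ), Tri Γ ξ δ' v' → f δ ≤ f δ' := by
    intro δ' v' h'
    by_cases hS' : δ' ∈ S
    · exact hmin δ' hS'
    · have : ∃ i, f δ₀ < sm 0 (δ' i) := by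
        by_contra hcon
        push Not at hcon
        exact hS' ⟨⟨v', h'⟩, hcon⟩
      obtain ⟨i, hi⟩ := this
      have h1 : f δ ≤ f δ₀ := by
        apply Finset.sup'_le
        intro i _
        exact hle i
      have h2 : sm 0 (δ' i) ≤ f δ' := Finset.le_sup' (fun i => sm 0 (δ' i)) (Finset.mem_univ i)
      linarith
  -- the maximum of the squared lengths
  obtain ⟨j, -, hj⟩ := Finset.exists_max_image Finset.univ (fun i : Fin 3 => bl (v i) (v i)) ⟨0, Finset.mem_univ _⟩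
  set m0 := bl (v j) (v j) with hm0
  have hm0pos : 0 < m0 := hv.pos hξ j
  have hthird : ∀ (δ' : Fin 3 → GLI) (v' : Fin 3 → I → ℝ), Tri Γ ξ δ' v' → ∃ i, m0 ≤ bl (v' i) (v' i) := by
    intro δ' v' h'
    obtain ⟨i, -, hi⟩ := Finset.exists_mem_eq_sup' (⟨0, Finset.mem_univ _⟩ : (Finset.univ : Finset (Fin 3)).Nonempty)
      (fun i => sm 0 (δ' i))
    refine ⟨i, (sm_le_iff hξ (hv.isU j) (h'.isU i) 0).1 ?_⟩
    have h1 : sm 0 (δ j) ≤ f δ := Finset.le_sup' (fun i => sm 0 (δ i)) (Finset.mem_univ j)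
    have h2 := hmin' δ' v' h'
    have h3 : f δ' = sm 0 (δ' i) := hi
    linarith
  set c := Real.sqrt (m0 / m) with hc
  have hc0 : 0 < c := Real.sqrt_pos.2 (div_pos hm0pos hm)
  have hc2 : c ^ 2 = m0 / m := Real.sq_sqrt (div_pos hm0pos hm).le
  have hcm : c⁻¹ ^ 2 * m0 = m := by
    rw [inv_pow, hc2]; field_simp
  refine ⟨c, hc0, ⟨by rw [bl_smul_left, bl_smul_right, hξ.1]; ring, by
    have := hξ.2; simp only [Pi.smul_apply, smul_eq_mul]; positivity⟩, δ, fun i => c⁻¹ • v i, ?_⟩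
  refine { toTri := hv.scale hc0.ne', le := ?_, eq := ?_, min := ?_ }
  · intro i
    rw [bl_smul_left, bl_smul_right, ← hcm]
    have := hj i (Finset.mem_univ _)
    have h2 : 0 < c⁻¹ ^ 2 := by positivity
    calc c⁻¹ * (c⁻¹ * bl (v i) (v i)) = c⁻¹ ^ 2 * bl (v i) (v i) := by ring
      _ ≤ c⁻¹ ^ 2 * m0 := by gcongr
  · refine ⟨j, ?_⟩
    rw [bl_smul_left, bl_smul_right, ← hcm]; ring
  · intro δ' v' h'
    have h2 := h'.scale (inv_ne_zero hc0.ne')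
    rw [smul_smul, inv_mul_cancel₀ hc0.ne', one_smul, inv_inv] at h2
    obtain ⟨i, hi⟩ := hthird δ' _ h2
    refine ⟨i, ?_⟩
    rw [bl_smul_left, bl_smul_right] at hi
    rw [← hcm]
    calc c⁻¹ ^ 2 * m0 ≤ c⁻¹ ^ 2 * (c * (c * bl (v' i) (v' i))) := by gcongr
      _ = bl (v' i) (v' i) := by field_simp

/-- uniqueness of the normalisation -/
theorem xi_unique {Γ : Subgroup GLI} {m : ℝ} (hm : 0 < m) {ξ ξ' : I → ℝ} (h : ξ ∈ Xi Γ m)
    (h' : ξ' ∈ Xi Γ m) {c : ℝ} (hc : 0 < c) (he : ξ' = c • ξ) : ξ = ξ' := by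
  obtain ⟨hξ, γ, w, hN⟩ := h
  obtain ⟨hξ', γ', w', hN'⟩ := h'
  have h1 := hN.toTri.scale hc.ne'
  rw [← he] at h1
  obtain ⟨i, hi⟩ := hN'.min _ _ h1
  have h2 := hN'.toTri.scale (inv_ne_zero hc.ne')
  rw [he, smul_smul, inv_mul_cancel₀ hc.ne', one_smul, inv_inv] at h2
  obtain ⟨j, hj⟩ := hN.min _ _ h2
  rw [bl_smul_left, bl_smul_right] at hi hj
  have hi' := hN.le i
  have hj' := hN'.le j
  have e1 : m ≤ c⁻¹ ^ 2 * m := by
    calc m ≤ c⁻¹ * (c⁻¹ * bl (w i) (w i)) := hi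
      _ = c⁻¹ ^ 2 * bl (w i) (w i) := by ring
      _ ≤ c⁻¹ ^ 2 * m := by gcongr
  have e2 : m ≤ c ^ 2 * m := by
    calc m ≤ c * (c * bl (w' j) (w' j)) := hj
      _ = c ^ 2 * bl (w' j) (w' j) := by ring
      _ ≤ c ^ 2 * m := by gcongr
  have e3 : 1 ≤ c ^ 2 := by
    by_contra hlt; push Not at hlt
    nlinarith
  have e4 : c ^ 2 ≤ 1 := by
    rw [inv_pow] at e1
    have hc2 : 0 < c ^ 2 := by positivity
    have : c ^ 2 * m ≤ m := by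
      calc c ^ 2 * m ≤ c ^ 2 * ((c ^ 2)⁻¹ * m) := by gcongr
        _ = m := by field_simp
    by_contra hlt; push Not at hlt
    nlinarith
  have e5 : c = 1 := by nlinarith
  rw [he, e5, one_smul]

theorem comm_Yg {γ δ : GLI} (h : γ * δ = δ * γ) : Yg γ * Yg δ = Yg δ * Yg γ := by
  have h1 : Commute γ δ := h
  have v1 : γ.val * δ.val = δ.val * γ.val := by
    have := congrArg Units.val h; simpa using this
  have v2 : (γ⁻¹ : GLI).val * δ.val = δ.val * (γ⁻¹ : GLI).val := by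
    have := congrArg Units.val (h1.inv_left : Commute γ⁻¹ δ).eq
    rwa [Units.val_mul, Units.val_mul] at this
  have v3 : γ.val * (δ⁻¹ : GLI).val = (δ⁻¹ : GLI).val * γ.val := by
    have := congrArg Units.val (h1.inv_right : Commute γ δ⁻¹).eq
    rwa [Units.val_mul, Units.val_mul] at this
  have v4 : (γ⁻¹ : GLI).val * (δ⁻¹ : GLI).val = (δ⁻¹ : GLI).val * (γ⁻¹ : GLI).val := by
    have := congrArg Units.val (h1.inv_inv : Commute γ⁻¹ δ⁻¹).eq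
    rwa [Units.val_mul, Units.val_mul] at this
  unfold Yg
  rw [Matrix.smul_mul, Matrix.mul_smul, Matrix.smul_mul, Matrix.mul_smul, Matrix.sub_mul,
    Matrix.mul_sub, Matrix.mul_sub, Matrix.sub_mul, Matrix.mul_sub, Matrix.mul_sub, v1, v2, v3, v4]
  congr 2
  abel

/-- the constants of the previous modules -/
structure Cst (η : ℝ) : Prop where
  zas : ∀ (Γ : Subgroup GLI), Disc Γ → ∀ (y : X),
    ∀ γ ∈ Γ, ∀ δ ∈ Γ, sm y γ ≤ η → sm y δ ≤ η → γ * δ = δ * γ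
  unip : ∀ (y : X) (γ : GLI) (ξ w : I → ℝ), InG γ → sm y γ ≤ η →
    NullF ξ → bl ξ w = 0 → Yg γ = wedge ξ w →
    γ.val = 1 + wedge ξ w + (1 / 2 : ℝ) • (wedge ξ w * wedge ξ w)

theorem same_dir {η : ℝ} (hη : Cst η) {Γ : Subgroup GLI} (hΓ : Disc Γ) {ξ ξ' : I → ℝ} (hξ : NullF ξ)
    (hξ' : NullF ξ') {γ γ' : Fin 3 → GLI} {w w' : Fin 3 → I → ℝ} (h : Tri Γ ξ γ w)
    (h' : Tri Γ ξ' γ' w') {y : X} (hy : sm y (γ 0) ≤ η) (hy' : sm y (γ' 0) ≤ η) :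
    ∃ c : ℝ, 0 < c ∧ ξ' = c • ξ := by
  have hc := comm_Yg (hη.zas Γ hΓ y _ (h.mem 0) _ (h'.mem 0) hy hy')
  rw [Yg_of_isU hξ.1 (h.isU 0), Yg_of_isU hξ'.1 (h'.isU 0)] at hc
  exact wedge_commute hξ (h.isU 0).1 (h.pos hξ 0) hξ' (h'.isU 0).1 (h'.pos hξ' 0) hc

theorem tri_of_small {η : ℝ} (hη : Cst η) {Γ : Subgroup GLI} (hΓ : Disc Γ) {y : X} {δ : Fin 3 → GLI}
    (hδ : ∀ i, δ i ∈ Γ) (hs : ∀ i, sm y (δ i) ≤ η) (hli : LinearIndependent ℝ (fun i => Yg (δ i))) :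
    ∃ ξ v, NullF ξ ∧ Tri Γ ξ δ v := by
  obtain ⟨ξ, hξ, hall⟩ := abelian_three (A := fun i => Yg (δ i)) (fun i => isSo_Yg (hΓ.inG _ (hδ i)))
    (fun i j => comm_Yg (hη.zas Γ hΓ y _ (hδ i) _ (hδ j) (hs i) (hs j))) hli
  have hall' := fun i => hall (Yg (δ i)) (isSo_Yg (hΓ.inG _ (hδ i)))
    (fun j => comm_Yg (hη.zas Γ hΓ y _ (hδ i) _ (hδ j) (hs i) (hs j)))
  choose v hv1 hv2 using hall'
  exact ⟨ξ, v, hξ, hδ, fun i => ⟨hv1 i, hη.unip y (δ i) ξ (v i) (hΓ.inG _ (hδ i)) (hs i) hξ (hv1 i) (hv2 i)⟩, hli⟩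

/-- the normalising constant -/
theorem exists_m {η : ℝ} (hη : 0 < η) : ∃ m : ℝ, 0 < m ∧ 4 * m + m ^ 2 = η ^ 2 := by
  refine ⟨Real.sqrt (4 + η ^ 2) - 2, ?_, ?_⟩
  · have : Real.sqrt 4 < Real.sqrt (4 + η ^ 2) := Real.sqrt_lt_sqrt (by norm_num) (by nlinarith)
    have h4 : Real.sqrt 4 = 2 := by
      rw [show (4 : ℝ) = 2 ^ 2 by norm_num]; exact Real.sqrt_sq (by norm_num)
    linarith
  · have := Real.sq_sqrt (show 0 ≤ 4 + η ^ 2 by positivity)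
    nlinarith

theorem eta_eq {η m : ℝ} (hη : 0 < η) (h : 4 * m + m ^ 2 = η ^ 2) :
    Real.sqrt (4 * m + m ^ 2) = η := by
  rw [h]; exact Real.sqrt_sq hη.le

theorem sm_le_eta {η m : ℝ} (hη : 0 < η) (hm : 0 < m) (h : 4 * m + m ^ 2 = η ^ 2) {ξ w : I → ℝ}
    {γ : GLI} (hξ : NullF ξ) (hU : IsU ξ w γ) (y : X) : sm y γ ≤ η ↔ hb ξ y ^ 2 * bl w w ≤ m := by
  rw [sm_of_isU hξ.1 hU, ← eta_eq hη h, sqrt_le_iff _ hm.le]
  have := orth_nonneg hξ hU.1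
  positivity

theorem eta_le_sm {η m : ℝ} (hη : 0 < η) (hm : 0 < m) (h : 4 * m + m ^ 2 = η ^ 2) {ξ w : I → ℝ}
    {γ : GLI} (hξ : NullF ξ) (hU : IsU ξ w γ) (y : X) : η ≤ sm y γ ↔ m ≤ hb ξ y ^ 2 * bl w w := by
  rw [sm_of_isU hξ.1 hU, ← eta_eq hη h, sqrt_le_iff hm.le]
  have := orth_nonneg hξ hU.1
  positivity

theorem nor_small {η m : ℝ} (hη : 0 < η) (hm : 0 < m) (h : 4 * m + m ^ 2 = η ^ 2) {Γ : Subgroup GLI}
    {ξ : I → ℝ} (hξ : NullF ξ) {γ : Fin 3 → GLI} {w : Fin 3 → I → ℝ} (hN : Nor Γ m ξ γ w) {y : X}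
    (hy : hb ξ y ≤ 1) (i : Fin 3) : sm y (γ i) ≤ η := by
  rw [sm_le_eta hη hm h hξ (hN.isU i)]
  have h1 := hb_pos hξ y
  have h2 := hN.le i
  have h3 := orth_nonneg hξ (hN.isU i).1
  have h4 : hb ξ y ^ 2 ≤ 1 := by nlinarith
  nlinarith

/-- conjugation -/
theorem wedge_mul_conj {g : GLI} (hg : InG g) (ξ w : I → ℝ) :
    g.val * wedge ξ w * (g⁻¹ : GLI).val = wedge (g.val *ᵥ ξ) (g.val *ᵥ w) := by
  have hgi : ∀ v : I → ℝ, g.val *ᵥ ((g⁻¹ : GLI).val *ᵥ v) = v := by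
    intro v
    rw [Matrix.mulVec_mulVec, ← Units.val_mul, mul_inv_cancel, Units.val_one, Matrix.one_mulVec]
  apply Z2.mat_ext
  intro v
  rw [← Matrix.mulVec_mulVec, ← Matrix.mulVec_mulVec, Z2.wedge_mulVec', Z2.wedge_mulVec',
    Matrix.mulVec_sub, Matrix.mulVec_smul, Matrix.mulVec_smul]
  have h1 : ∀ u : I → ℝ, bl u ((g⁻¹ : GLI).val *ᵥ v) = bl (g.val *ᵥ u) v := by
    intro u
    rw [← bl_mulVec hg.1 u, hgi]
  rw [h1, h1]

theorem IsU.conj {ξ w : I → ℝ} {γ g : GLI} (hg : InG g) (h : IsU ξ w γ) :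
    IsU (g.val *ᵥ ξ) (g.val *ᵥ w) (g * γ * g⁻¹) := by
  refine ⟨by rw [bl_mulVec hg.1]; exact h.1, ?_⟩
  have hgg : g.val * (g⁻¹ : GLI).val = 1 := by rw [← Units.val_mul, mul_inv_cancel, Units.val_one]
  have hgg' : (g⁻¹ : GLI).val * g.val = 1 := by rw [← Units.val_mul, inv_mul_cancel, Units.val_one]
  rw [Units.val_mul, Units.val_mul, h.2, ← wedge_mul_conj hg]
  have e : g.val * wedge ξ w * (g⁻¹ : GLI).val * (g.val * wedge ξ w * (g⁻¹ : GLI).val)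
      = g.val * (wedge ξ w * wedge ξ w) * (g⁻¹ : GLI).val := by
    calc _ = g.val * wedge ξ w * ((g⁻¹ : GLI).val * g.val) * wedge ξ w * (g⁻¹ : GLI).val := by
          simp only [Matrix.mul_assoc]
      _ = _ := by rw [hgg']; simp only [Matrix.mul_assoc, Matrix.mul_one, Matrix.one_mul]
  rw [e, Matrix.mul_add, Matrix.mul_add, Matrix.add_mul, Matrix.add_mul, Matrix.mul_one, hgg,
    Matrix.mul_smul, Matrix.smul_mul]

theorem Yg_conj (g γ : GLI) : Yg (g * γ * g⁻¹) = g.val * Yg γ * (g⁻¹ : GLI).val := by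
  unfold Yg
  have : (g * γ * g⁻¹)⁻¹ = g * γ⁻¹ * g⁻¹ := by group
  rw [this, Units.val_mul, Units.val_mul, Units.val_mul, Units.val_mul, Matrix.mul_smul,
    Matrix.smul_mul, Matrix.mul_sub, Matrix.sub_mul]

theorem Tri.conj {Γ : Subgroup GLI} {ξ : I → ℝ} {γ : Fin 3 → GLI} {w : Fin 3 → I → ℝ}
    (h : Tri Γ ξ γ w) {g : GLI} (hg : g ∈ Γ) (hgG : InG g) :
    Tri Γ (g.val *ᵥ ξ) (fun i => g * γ i * g⁻¹) (fun i => g.val *ᵥ w i) where
  mem := fun i => Γ.mul_mem (Γ.mul_mem hg (h.mem i)) (Γ.inv_mem hg)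
  isU := fun i => (h.isU i).conj hgG
  li := by
    rw [Fintype.linearIndependent_iff]
    intro c hc
    refine Fintype.linearIndependent_iff.1 h.li c ?_
    have hgg' : (g⁻¹ : GLI).val * g.val = 1 := by
      rw [← Units.val_mul, inv_mul_cancel, Units.val_one]
    have e : (g⁻¹ : GLI).val * (∑ i, c i • Yg (g * γ i * g⁻¹)) * g.val = ∑ i, c i • Yg (γ i) := by
      rw [Finset.mul_sum, Finset.sum_mul]
      refine Finset.sum_congr rfl (fun i _ => ?_)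
      rw [Matrix.mul_smul, Matrix.smul_mul, Yg_conj]
      congr 1
      calc _ = ((g⁻¹ : GLI).val * g.val) * Yg (γ i) * ((g⁻¹ : GLI).val * g.val) := by
            simp only [Matrix.mul_assoc]
        _ = _ := by rw [hgg', Matrix.one_mul, Matrix.mul_one]
    rw [← e, hc]; simp

theorem mulVec_inv_mulVec (g : GLI) (v : I → ℝ) : (g⁻¹ : GLI).val *ᵥ (g.val *ᵥ v) = v := by
  rw [Matrix.mulVec_mulVec, ← Units.val_mul, inv_mul_cancel, Units.val_one, Matrix.one_mulVec]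

theorem Nor.conj {Γ : Subgroup GLI} {m : ℝ} {ξ : I → ℝ} {γ : Fin 3 → GLI} {w : Fin 3 → I → ℝ}
    (h : Nor Γ m ξ γ w) {g : GLI} (hg : g ∈ Γ) (hgG : InG g) :
    Nor Γ m (g.val *ᵥ ξ) (fun i => g * γ i * g⁻¹) (fun i => g.val *ᵥ w i) where
  toTri := h.toTri.conj hg hgG
  le := fun i => by rw [bl_mulVec hgG.1]; exact h.le i
  eq := by
    obtain ⟨i, hi⟩ := h.eq
    exact ⟨i, by rw [bl_mulVec hgG.1]; exact hi⟩
  min := by
    intro δ v hδ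
    have := hδ.conj (Γ.inv_mem hg) hgG.inv
    rw [mulVec_inv_mulVec] at this
    obtain ⟨i, hi⟩ := h.min _ _ this
    exact ⟨i, by rwa [bl_mulVec hgG.inv.1] at hi⟩

end H1

/-- [H1] The deep part is a union of disjoint horoballs; near each of them the small elements are
translations.  `ξ` is normalised so that the third minimum of the translation lattice is `η`
exactly on the boundary horosphere. -/
theorem exists_horo : ∃ η₀ : ℝ, 0 < η₀ ∧ ∀ η : ℝ, 0 < η → η ≤ η₀ → ∀ Γ : Subgroup GLI, Disc Γ →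
    ∃ Ξ : Set (I → ℝ), Horo Ξ ∧ (∀ γ ∈ Γ, ∀ ξ ∈ Ξ, γ.val *ᵥ ξ ∈ Ξ) ∧
      (∀ y, y ∈ Deep Γ η ↔ ∃ ξ ∈ Ξ, hb ξ y < 1) ∧
      (∀ ξ ∈ Ξ, ∃ γ : Fin 3 → GLI, (∀ i, γ i ∈ Γ) ∧ LinearIndependent ℝ (fun i => Yg (γ i)) ∧
        (∀ i, ∃ w, bl ξ w = 0 ∧ (γ i).val = 1 + wedge ξ w + (1 / 2 : ℝ) • (wedge ξ w * wedge ξ w)) ∧
        (∀ y, hb ξ y ≤ 1 → ∀ i, sm y (γ i) ≤ η) ∧
        (∀ y, 1 ≤ hb ξ y → ∃ i, η ≤ sm y (γ i)) ∧
        (∀ y, hb ξ y ≤ 1 → ∀ δ : Fin 3 → GLI, (∀ i, δ i ∈ Γ) →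
          LinearIndependent ℝ (fun i => Yg (δ i)) → ∃ i, ∀ j, sm y (γ j) ≤ sm y (δ i))) := by
  obtain ⟨η₁, hη₁, hz⟩ := zassenhaus
  obtain ⟨η₂, hη₂, hu⟩ := unip_of_wedge
  refine ⟨min η₁ η₂, lt_min hη₁ hη₂, ?_⟩
  intro η hη hle Γ hΓ
  have hC : H1.Cst η := ⟨fun Γ hΓ y γ hγ δ hδ h1 h2 => hz Γ hΓ y γ hγ δ hδ
      (h1.trans (hle.trans (min_le_left _ _))) (h2.trans (hle.trans (min_le_left _ _))),
    fun y γ ξ w hγ hs hξ hw hY => (hu y γ ξ w hγ (hs.trans (hle.trans (min_le_right _ _))) hξ hw hY).1⟩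
  obtain ⟨m, hm, hmη⟩ := H1.exists_m hη
  refine ⟨H1.Xi Γ m, ⟨fun ξ hξ => hξ.1, ?_, ?_⟩, ?_, ?_, ?_⟩
  · -- disjoint
    intro ξ hξ ξ' hξ' y hy hy'
    obtain ⟨hn, γ, w, hN⟩ := id hξ
    obtain ⟨hn', γ', w', hN'⟩ := id hξ'
    obtain ⟨c, hc, he⟩ := H1.same_dir hC hΓ hn hn' hN.toTri hN'.toTri
      (H1.nor_small hη hm hmη hn hN hy 0) (H1.nor_small hη hm hmη hn' hN' hy' 0)
    exact H1.xi_unique hm hξ hξ' hc he
  · -- locally finite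
    intro y r
    have hsel : ∀ ξ : I → ℝ, ∃ γ : GLI, ξ ∈ H1.Xi Γ m →
        ∃ w, γ ∈ Γ ∧ H1.IsU ξ w γ ∧ 0 < bl w w ∧ ∀ z, hb ξ z ≤ 1 → sm z γ ≤ η := by
      intro ξ
      by_cases h : ξ ∈ H1.Xi Γ m
      · obtain ⟨hn, γ, w, hN⟩ := h
        exact ⟨γ 0, fun _ => ⟨w 0, hN.mem 0, hN.isU 0, hN.toTri.pos hn 0,
          fun z hz => H1.nor_small hη hm hmη hn hN hz 0⟩⟩
      · exact ⟨1, fun h' => absurd h' h⟩
    choose f hf using hsel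
    have hfin := finite_near hΓ y r (Real.arcosh (1 + η))
    refine Set.Finite.of_finite_image (f := f) (hfin.subset ?_) ?_
    · rintro γ ⟨ξ, ⟨hξ, z, hz1, hz2⟩, rfl⟩
      obtain ⟨w, h1, h2, h3, h4⟩ := hf ξ hξ
      refine ⟨h1, z, hz1, ?_⟩
      unfold hd
      rw [Real.arcosh_le_arcosh (lt_of_lt_of_le one_pos (one_le_ch _ _)) (by linarith)]
      exact (ch_le_of_sm (hΓ.inG _ h1) z).trans (by linarith [h4 z hz2])
    · rintro ξ ⟨hξ, -⟩ ξ' ⟨hξ', -⟩ he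
      obtain ⟨w, h1, h2, h3, h4⟩ := hf ξ hξ
      obtain ⟨w', h1', h2', h3', h4'⟩ := hf ξ' hξ'
      have hY := H1.Yg_of_isU hξ.1.1 h2
      have hY' := H1.Yg_of_isU hξ'.1.1 h2'
      have he' : f ξ = f ξ' := he
      rw [he', hY'] at hY
      obtain ⟨c, hc, hcξ⟩ := wedge_commute hξ.1 h2.1 h3 hξ'.1 h2'.1 h3' (by rw [hY])
      exact H1.xi_unique hm hξ hξ' hc hcξ
  · -- invariance
    rintro g hg ξ ⟨hn, γ, w, hN⟩
    exact ⟨nullF_mulVec hn (hΓ.inG g hg), _, _, hN.conj hg (hΓ.inG g hg)⟩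
  · -- deep part
    intro y
    constructor
    · rintro ⟨δ, hδ, hli⟩
      obtain ⟨ξ, v, hξ, hT⟩ := H1.tri_of_small hC hΓ (fun i => (hδ i).1) (fun i => (hδ i).2.le) hli
      obtain ⟨c, hc, hmem⟩ := H1.exists_nor hΓ hm hξ hT
      refine ⟨c • ξ, hmem, ?_⟩
      obtain ⟨hn, γ, w, hN⟩ := id hmem
      obtain ⟨i, hi⟩ := hN.min _ _ (hT.scale hc.ne')
      by_contra hge
      push Not at hge
      have h1 : η ≤ sm y (δ i) := by
        rw [H1.eta_le_sm hη hm hmη hn ((hT.scale hc.ne').isU i)]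
        calc m ≤ 1 * m := by linarith
          _ ≤ hb (c • ξ) y ^ 2 * bl ((fun i => c⁻¹ • v i) i) ((fun i => c⁻¹ • v i) i) := by
            have : 1 ≤ hb (c • ξ) y ^ 2 := by nlinarith
            gcongr
      linarith [(hδ i).2]
    · rintro ⟨ξ, ⟨hn, γ, w, hN⟩, hy⟩
      refine ⟨γ, fun i => ⟨hN.mem i, ?_⟩, hN.li⟩
      by_contra hge
      push Not at hge
      rw [H1.eta_le_sm hη hm hmη hn (hN.isU i)] at hge
      have h1 := hb_pos hn y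
      have h2 := hN.le i
      have h3 : hb ξ y ^ 2 < 1 := by nlinarith
      have h4 := hN.toTri.pos hn i
      nlinarith
  · rintro ξ ⟨hn, γ, w, hN⟩
    refine ⟨γ, hN.mem, hN.li, fun i => ⟨w i, (hN.isU i).1, (hN.isU i).2⟩,
      fun y hy i => H1.nor_small hη hm hmη hn hN hy i, ?_, ?_⟩
    · intro y hy
      obtain ⟨i, hi⟩ := hN.eq
      refine ⟨i, ?_⟩
      rw [H1.eta_le_sm hη hm hmη hn (hN.isU i), hi]
      have : 1 ≤ hb ξ y ^ 2 := by nlinarith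
      nlinarith
    · intro y hy δ hδ hli
      by_cases hs : ∀ i, sm y (δ i) ≤ η
      · obtain ⟨ξ', v, hξ', hT⟩ := H1.tri_of_small hC hΓ hδ hs hli
        obtain ⟨c, hc, he⟩ := H1.same_dir hC hΓ hn hξ' hN.toTri hT
          (H1.nor_small hη hm hmη hn hN hy 0) (hs 0)
        have hT2 := hT.scale (inv_ne_zero hc.ne')
        rw [he, smul_smul, inv_mul_cancel₀ hc.ne', one_smul] at hT2
        obtain ⟨i, hi⟩ := hN.min _ _ hT2
        exact ⟨i, fun j => (H1.sm_le_iff hn (hN.isU j) (hT2.isU i) y).2 ((hN.le j).trans hi)⟩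
      · push Not at hs
        obtain ⟨i, hi⟩ := hs
        exact ⟨i, fun j => (H1.nor_small hη hm hmη hn hN hy j).trans hi.le⟩

end Pool.Agent.helper21.WB
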