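import Pool.Agent.helper21.WB.Defs2

/-! WB-Z2 `abelian_three`: three-dimensional abelian subalgebras of `so(4,1)` are unipotent.  Part 1: explicit
coordinates, Pfaffian vector. -/

set_option autoImplicit false
open Matrix MeasureTheory

namespace Pool.Agent.helper21.WB.Z2

/-- explicit element of `so(4,1)` -/
noncomputable def mk (a b c d e f u v w z : ℝ) : Mat :=
  Matrix.fromBlocks !![0,a,b,c; -a,0,d,e; -b,-d,0,f; -c,-e,-f,0]
    (Matrix.of fun i _ => ![u,v,w,z] i) (Matrix.of fun _ j => ![u,v,w,z] j) 0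

@[simp] theorem mk_00 (a b c d e f u v w z : ℝ) : mk a b c d e f u v w z (Sum.inl 0) (Sum.inl 0) = 0 := by
  simp [mk]
@[simp] theorem mk_01 (a b c d e f u v w z : ℝ) : mk a b c d e f u v w z (Sum.inl 0) (Sum.inl 1) = a := by
  simp [mk]
@[simp] theorem mk_02 (a b c d e f u v w z : ℝ) : mk a b c d e f u v w z (Sum.inl 0) (Sum.inl 2) = b := by
  simp [mk]
@[simp] theorem mk_03 (a b c d e f u v w z : ℝ) : mk a b c d e f u v w z (Sum.inl 0) (Sum.inl 3) = c := by
  simp [mk]
@[simp] theorem mk_04 (a b c d e f u v w z : ℝ) : mk a b c d e f u v w z (Sum.inl 0) o = u := by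
  simp [mk]
@[simp] theorem mk_10 (a b c d e f u v w z : ℝ) : mk a b c d e f u v w z (Sum.inl 1) (Sum.inl 0) = -a := by
  simp [mk]
@[simp] theorem mk_11 (a b c d e f u v w z : ℝ) : mk a b c d e f u v w z (Sum.inl 1) (Sum.inl 1) = 0 := by
  simp [mk]
@[simp] theorem mk_12 (a b c d e f u v w z : ℝ) : mk a b c d e f u v w z (Sum.inl 1) (Sum.inl 2) = d := by
  simp [mk]
@[simp] theorem mk_13 (a b c d e f u v w z : ℝ) : mk a b c d e f u v w z (Sum.inl 1) (Sum.inl 3) = e := by
  simp [mk]
@[simp] theorem mk_14 (a b c d e f u v w z : ℝ) : mk a b c d e f u v w z (Sum.inl 1) o = v := by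
  simp [mk]
@[simp] theorem mk_20 (a b c d e f u v w z : ℝ) : mk a b c d e f u v w z (Sum.inl 2) (Sum.inl 0) = -b := by
  simp [mk]
@[simp] theorem mk_21 (a b c d e f u v w z : ℝ) : mk a b c d e f u v w z (Sum.inl 2) (Sum.inl 1) = -d := by
  simp [mk]
@[simp] theorem mk_22 (a b c d e f u v w z : ℝ) : mk a b c d e f u v w z (Sum.inl 2) (Sum.inl 2) = 0 := by
  simp [mk]
@[simp] theorem mk_23 (a b c d e f u v w z : ℝ) : mk a b c d e f u v w z (Sum.inl 2) (Sum.inl 3) = f := by
  simp [mk]
@[simp] theorem mk_24 (a b c d e f u v w z : ℝ) : mk a b c d e f u v w z (Sum.inl 2) o = w := by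
  simp [mk]
@[simp] theorem mk_30 (a b c d e f u v w z : ℝ) : mk a b c d e f u v w z (Sum.inl 3) (Sum.inl 0) = -c := by
  simp [mk]
@[simp] theorem mk_31 (a b c d e f u v w z : ℝ) : mk a b c d e f u v w z (Sum.inl 3) (Sum.inl 1) = -e := by
  simp [mk]
@[simp] theorem mk_32 (a b c d e f u v w z : ℝ) : mk a b c d e f u v w z (Sum.inl 3) (Sum.inl 2) = -f := by
  simp [mk]
@[simp] theorem mk_33 (a b c d e f u v w z : ℝ) : mk a b c d e f u v w z (Sum.inl 3) (Sum.inl 3) = 0 := by
  simp [mk]
@[simp] theorem mk_34 (a b c d e f u v w z : ℝ) : mk a b c d e f u v w z (Sum.inl 3) o = z := by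
  simp [mk]
@[simp] theorem mk_40 (a b c d e f u v w z : ℝ) : mk a b c d e f u v w z o (Sum.inl 0) = u := by
  simp [mk]
@[simp] theorem mk_41 (a b c d e f u v w z : ℝ) : mk a b c d e f u v w z o (Sum.inl 1) = v := by
  simp [mk]
@[simp] theorem mk_42 (a b c d e f u v w z : ℝ) : mk a b c d e f u v w z o (Sum.inl 2) = w := by
  simp [mk]
@[simp] theorem mk_43 (a b c d e f u v w z : ℝ) : mk a b c d e f u v w z o (Sum.inl 3) = z := by
  simp [mk]
@[simp] theorem mk_44 (a b c d e f u v w z : ℝ) : mk a b c d e f u v w z o o = 0 := by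
  simp [mk]

theorem ext_I {A B : Mat} (h : ∀ i j : Fin 4, A (Sum.inl i) (Sum.inl j) = B (Sum.inl i) (Sum.inl j))
    (h1 : ∀ i : Fin 4, A (Sum.inl i) o = B (Sum.inl i) o)
    (h2 : ∀ i : Fin 4, A o (Sum.inl i) = B o (Sum.inl i)) (h3 : A o o = B o o) : A = B := by
  ext i j
  rcases i with i | i <;> rcases j with j | j
  · exact h i j
  · exact h1 i
  · exact h2 j
  · exact h3

theorem mul_e (A B : Mat) (i j : I) : (A * B) i j = A i (Sum.inl 0) * B (Sum.inl 0) j
    + A i (Sum.inl 1) * B (Sum.inl 1) j + A i (Sum.inl 2) * B (Sum.inl 2) j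
    + A i (Sum.inl 3) * B (Sum.inl 3) j + A i o * B o j := by
  rw [Matrix.mul_apply, Fintype.sum_sum_type, Fin.sum_univ_four]
  simp

theorem mulVec_e (A : Mat) (x : I → ℝ) (i : I) : (A *ᵥ x) i = A i (Sum.inl 0) * x (Sum.inl 0)
    + A i (Sum.inl 1) * x (Sum.inl 1) + A i (Sum.inl 2) * x (Sum.inl 2)
    + A i (Sum.inl 3) * x (Sum.inl 3) + A i o * x o := by
  rw [Matrix.mulVec, dotProduct, Fintype.sum_sum_type, Fin.sum_univ_four]
  simp


theorem J_e (i j : I) : J i j = if i = j then (if i = o then -1 else 1) else 0 := by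
  rcases i with i | i <;> rcases j with j | j
  · by_cases h : i = j <;> simp [J, Matrix.one_apply, h]
  · simp [J]
  · simp [J]
  · simp [J]

theorem JA_e (A : Mat) (i j : I) : (J * A) i j = (if i = o then -1 else 1) * A i j := by
  rw [Matrix.mul_apply]
  simp [J_e]

theorem AtJ_e (A : Mat) (i j : I) : (Aᵀ * J) i j = (if j = o then -1 else 1) * A j i := by
  rw [Matrix.mul_apply]
  simp [J_e, mul_comm]

theorem isSo_e {A : Mat} (hA : IsSo A) (i j : I) :
    (if j = o then -1 else 1) * A j i + (if i = o then -1 else 1) * A i j = 0 := by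
  have := congrFun (congrFun hA i) j
  rw [Matrix.add_apply, AtJ_e, JA_e] at this
  exact this

theorem isSo_of_e {A : Mat} (h : ∀ i j : I,
    (if j = o then (-1 : ℝ) else 1) * A j i + (if i = o then -1 else 1) * A i j = 0) : IsSo A := by
  unfold IsSo
  ext i j
  rw [Matrix.add_apply, AtJ_e, JA_e]
  exact h i j

theorem so_ss {A : Mat} (hA : IsSo A) (i j : Fin 4) : A (Sum.inl j) (Sum.inl i) = - A (Sum.inl i) (Sum.inl j) := by
  have := isSo_e hA (Sum.inl i) (Sum.inl j)
  simp at this; linarith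

theorem so_so {A : Mat} (hA : IsSo A) (i : Fin 4) : A o (Sum.inl i) = A (Sum.inl i) o := by
  have := isSo_e hA (Sum.inl i) o
  simp at this; linarith

theorem so_oo {A : Mat} (hA : IsSo A) : A o o = 0 := by
  have := isSo_e hA o o
  simp at this; linarith

theorem so_dd {A : Mat} (hA : IsSo A) (i : Fin 4) : A (Sum.inl i) (Sum.inl i) = 0 := by
  have := so_ss hA i i
  linarith

theorem exists_mk {A : Mat} (hA : IsSo A) : ∃ a b c d e f u v w z : ℝ, A = mk a b c d e f u v w z := by
  refine ⟨A (Sum.inl 0) (Sum.inl 1), A (Sum.inl 0) (Sum.inl 2), A (Sum.inl 0) (Sum.inl 3),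
    A (Sum.inl 1) (Sum.inl 2), A (Sum.inl 1) (Sum.inl 3), A (Sum.inl 2) (Sum.inl 3),
    A (Sum.inl 0) o, A (Sum.inl 1) o, A (Sum.inl 2) o, A (Sum.inl 3) o, ?_⟩
  apply ext_I
  · intro i j
    fin_cases i <;> fin_cases j
    · simpa using so_dd hA 0
    · simp
    · simp
    · simp
    · simpa using so_ss hA 0 1
    · simpa using so_dd hA 1
    · simp
    · simp
    · simpa using so_ss hA 0 2
    · simpa using so_ss hA 1 2
    · simpa using so_dd hA 2
    · simp
    · simpa using so_ss hA 0 3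
    · simpa using so_ss hA 1 3
    · simpa using so_ss hA 2 3
    · simpa using so_dd hA 3
  · intro i
    fin_cases i <;> simp
  · intro i
    fin_cases i
    · simpa using so_so hA 0
    · simpa using so_so hA 1
    · simpa using so_so hA 2
    · simpa using so_so hA 3
  · simpa using so_oo hA

/-- the Pfaffian vector -/
noncomputable def pf (A : Mat) : I → ℝ :=
  Sum.elim ![A (Sum.inl 1) (Sum.inl 2) * A (Sum.inl 3) o - A (Sum.inl 1) (Sum.inl 3) * A (Sum.inl 2) o
      + A (Sum.inl 1) o * A (Sum.inl 2) (Sum.inl 3),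
    -(A (Sum.inl 0) (Sum.inl 2) * A (Sum.inl 3) o - A (Sum.inl 0) (Sum.inl 3) * A (Sum.inl 2) o
      + A (Sum.inl 0) o * A (Sum.inl 2) (Sum.inl 3)),
    A (Sum.inl 0) (Sum.inl 1) * A (Sum.inl 3) o - A (Sum.inl 0) (Sum.inl 3) * A (Sum.inl 1) o
      + A (Sum.inl 0) o * A (Sum.inl 1) (Sum.inl 3),
    -(A (Sum.inl 0) (Sum.inl 1) * A (Sum.inl 2) o - A (Sum.inl 0) (Sum.inl 2) * A (Sum.inl 1) o
      + A (Sum.inl 0) o * A (Sum.inl 1) (Sum.inl 2))]
    (fun _ => A (Sum.inl 0) (Sum.inl 1) * A (Sum.inl 2) (Sum.inl 3)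
      - A (Sum.inl 0) (Sum.inl 2) * A (Sum.inl 1) (Sum.inl 3)
      + A (Sum.inl 0) (Sum.inl 3) * A (Sum.inl 1) (Sum.inl 2))

/-- everything that commutes with `A` kills the Pfaffian vector of `A` -/
theorem pf_kill {A B : Mat} (hA : IsSo A) (hB : IsSo B) (h : B * A = A * B) : B *ᵥ pf A = 0 := by
  obtain ⟨a, b, c, d, e, f, u, v, w, z, rfl⟩ := exists_mk hA
  obtain ⟨a', b', c', d', e', f', u', v', w', z', rfl⟩ := exists_mk hB
  have H : ∀ i j, (mk a' b' c' d' e' f' u' v' w' z' * mk a b c d e f u v w z) i j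
      = (mk a b c d e f u v w z * mk a' b' c' d' e' f' u' v' w' z') i j := fun i j => by rw [h]
  have h01 := H (Sum.inl 0) (Sum.inl 1)
  have h02 := H (Sum.inl 0) (Sum.inl 2)
  have h03 := H (Sum.inl 0) (Sum.inl 3)
  have h12 := H (Sum.inl 1) (Sum.inl 2)
  have h13 := H (Sum.inl 1) (Sum.inl 3)
  have h23 := H (Sum.inl 2) (Sum.inl 3)
  have h0 := H (Sum.inl 0) o
  have h1 := H (Sum.inl 1) o
  have h2 := H (Sum.inl 2) o
  have h3 := H (Sum.inl 3) o
  clear H h
  simp only [mul_e, mk_00, mk_01, mk_02, mk_03, mk_04, mk_10, mk_11, mk_12, mk_13, mk_14, mk_20, mk_21, mk_22,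
    mk_23, mk_24, mk_30, mk_31, mk_32, mk_33, mk_34, mk_40, mk_41, mk_42, mk_43, mk_44] at h01 h02 h03 h12 h13 h23 h0 h1 h2 h3
  ext i
  rw [mulVec_e]
  rcases i with i | i
  · fin_cases i
    · simp [pf]
      linear_combination z * h12 + d * h3 - w * h13 - e * h2 + f * h1 + v * h23
    · simp [pf]
      linear_combination -(z * h02 + b * h3 - w * h03 - c * h2 + f * h0 + u * h23)
    · simp [pf]
      linear_combination z * h01 + a * h3 - v * h03 - c * h1 + e * h0 + u * h13
    · simp [pf]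
      linear_combination -(w * h01 + a * h2 - v * h02 - b * h1 + d * h0 + u * h12)
  · have hi : (Sum.inr i : I) = o := rfl
    rw [hi]
    simp [pf]
    linear_combination f * h01 + a * h23 - e * h02 - b * h13 + d * h03 + c * h12


/-- a skew matrix with vanishing Pfaffian vector satisfies `A³ = (tr A²/2) A` -/
theorem cub {A : Mat} (hA : IsSo A) (h : pf A = 0) : A * A * A = ((A * A).trace / 2) • A := by
  obtain ⟨a, b, c, d, e, f, u, v, w, z, rfl⟩ := exists_mk hA
  have h0 : d * z - e * w + v * f = 0 := by simpa [pf] using congrFun h (Sum.inl 0)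
  have h1 : b * z - c * w + u * f = 0 := by
    have := congrFun h (Sum.inl 1)
    simp [pf] at this; linarith
  have h2 : a * z - c * v + u * e = 0 := by simpa [pf] using congrFun h (Sum.inl 2)
  have h3 : a * w - b * v + u * d = 0 := by
    have := congrFun h (Sum.inl 3)
    simp [pf] at this; linarith
  have h4 : a * f - b * e + c * d = 0 := by simpa [pf] using congrFun h o
  have ht : (mk a b c d e f u v w z * mk a b c d e f u v w z).trace / 2
      = u ^ 2 + v ^ 2 + w ^ 2 + z ^ 2 - a ^ 2 - b ^ 2 - c ^ 2 - d ^ 2 - e ^ 2 - f ^ 2 := by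
    rw [Matrix.trace, Fintype.sum_sum_type, Fin.sum_univ_four]
    simp only [Matrix.diag_apply, mul_e, Finset.univ_unique, Finset.sum_singleton]
    simp [mul_e]
    ring
  rw [ht]
  apply ext_I
  · intro i j
    simp only [mul_e, Matrix.smul_apply, smul_eq_mul]
    fin_cases i <;> fin_cases j
    · simp; ring
    · simp; linear_combination (-1) * z * h2 + (-1) * w * h3 + (1) * f * h4
    · simp; linear_combination (-1) * z * h1 + (1) * v * h3 + (-1) * e * h4
    · simp; linear_combination (1) * w * h1 + (1) * v * h2 + (1) * d * h4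
    · simp; linear_combination (1) * z * h2 + (1) * w * h3 + (-1) * f * h4
    · simp; ring
    · simp; linear_combination (-1) * z * h0 + (-1) * u * h3 + (1) * c * h4
    · simp; linear_combination (1) * w * h0 + (-1) * u * h2 + (-1) * b * h4
    · simp; linear_combination (1) * z * h1 + (-1) * v * h3 + (1) * e * h4
    · simp; linear_combination (1) * z * h0 + (1) * u * h3 + (-1) * c * h4
    · simp; ring
    · simp; linear_combination (-1) * v * h0 + (-1) * u * h1 + (1) * a * h4
    · simp; linear_combination (-1) * w * h1 + (-1) * v * h2 + (-1) * d * h4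
    · simp; linear_combination (-1) * w * h0 + (1) * u * h2 + (1) * b * h4
    · simp; linear_combination (1) * v * h0 + (1) * u * h1 + (-1) * a * h4
    · simp; ring
  · intro i
    simp only [mul_e, Matrix.smul_apply, smul_eq_mul]
    fin_cases i
    · simp; linear_combination (1) * f * h1 + (1) * e * h2 + (1) * d * h3
    · simp; linear_combination (1) * f * h0 + (-1) * c * h2 + (-1) * b * h3
    · simp; linear_combination (-1) * e * h0 + (-1) * c * h1 + (1) * a * h3
    · simp; linear_combination (1) * d * h0 + (1) * b * h1 + (1) * a * h2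
  · intro i
    simp only [mul_e, Matrix.smul_apply, smul_eq_mul]
    fin_cases i
    · simp; linear_combination (1) * f * h1 + (1) * e * h2 + (1) * d * h3
    · simp; linear_combination (1) * f * h0 + (-1) * c * h2 + (-1) * b * h3
    · simp; linear_combination (-1) * e * h0 + (-1) * c * h1 + (1) * a * h3
    · simp; linear_combination (1) * d * h0 + (1) * b * h1 + (1) * a * h2
  · simp only [mul_e, Matrix.smul_apply, smul_eq_mul]
    simp; ring

end Pool.Agent.helper21.WB.Z2
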