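import Pool.Agent.helper46.WB.Z2a

/-! WB-Z2, part 2: the three normal forms. -/

set_option autoImplicit false
open Matrix MeasureTheory

namespace Pool.Agent.helper21.WB.Z2

theorem exists_rel (p q : Fin 3 → ℝ) :
    ∃ c : Fin 3 → ℝ, c ≠ 0 ∧ ∑ i, c i * p i = 0 ∧ ∑ i, c i * q i = 0 := by
  let φ : (Fin 3 → ℝ) →ₗ[ℝ] (Fin 2 → ℝ) := Matrix.mulVecLin (Matrix.of ![p, q])
  have hk : LinearMap.ker φ ≠ ⊥ := LinearMap.ker_ne_bot_of_finrank_lt (by simp)
  obtain ⟨c, hc, hc0⟩ := Submodule.exists_mem_ne_zero_of_ne_bot hk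
  refine ⟨c, hc0, ?_, ?_⟩
  · have := congrFun (LinearMap.mem_ker.1 hc) 0
    simpa [φ, Matrix.mulVec, dotProduct, mul_comm] using this
  · have := congrFun (LinearMap.mem_ker.1 hc) 1
    simpa [φ, Matrix.mulVec, dotProduct, mul_comm] using this

theorem par {K : Type*} [Field K] (x : Fin 3 → Fin 3 → K)
    (h : ∀ i j k l, x i k * x j l = x i l * x j k) : ∃ (n s : Fin 3 → K), ∀ i k, x i k = s i * n k := by
  classical
  by_cases h0 : ∃ i k, x i k ≠ 0
  · obtain ⟨i0, k0, h0⟩ := h0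
    refine ⟨x i0, fun i => x i k0 / x i0 k0, fun i k => ?_⟩
    have := h i i0 k k0
    field_simp
    exact this
  · push Not at h0
    exact ⟨0, 0, fun i k => by simp [h0 i k]⟩

/-- a commuting independent family -/
structure Fam (A : Fin 3 → Mat) : Prop where
  so : ∀ i, IsSo (A i)
  comm : ∀ i j, A i * A j = A j * A i
  li : LinearIndependent ℝ A

theorem so_add {A B : Mat} (hA : IsSo A) (hB : IsSo B) : IsSo (A + B) := by
  unfold IsSo at *
  rw [Matrix.transpose_add, Matrix.add_mul, Matrix.mul_add]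
  calc _ = (Aᵀ * J + J * A) + (Bᵀ * J + J * B) := by abel
    _ = 0 := by rw [hA, hB, add_zero]

theorem so_smul {A : Mat} (hA : IsSo A) (c : ℝ) : IsSo (c • A) := by
  unfold IsSo at *
  rw [Matrix.transpose_smul, Matrix.smul_mul, Matrix.mul_smul, ← smul_add, hA, smul_zero]

theorem so_zero : IsSo (0 : Mat) := by simp [IsSo]

theorem so_sum {A : Fin 3 → Mat} (hA : ∀ i, IsSo (A i)) (c : Fin 3 → ℝ) :
    IsSo (∑ i, c i • A i) := by
  rw [Fin.sum_univ_three]
  exact so_add (so_add (so_smul (hA 0) _) (so_smul (hA 1) _)) (so_smul (hA 2) _)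

theorem Fam.ne_zero {A : Fin 3 → Mat} (h : Fam A) {c : Fin 3 → ℝ} (hc : c ≠ 0) :
    ∑ i, c i • A i ≠ 0 := by
  intro h0
  exact hc (funext (Fintype.linearIndependent_iff.1 h.li c h0))

theorem Fam.comm_sum {A : Fin 3 → Mat} (h : Fam A) (c : Fin 3 → ℝ) (j : Fin 3) :
    (∑ i, c i • A i) * A j = A j * (∑ i, c i • A i) := by
  rw [Finset.sum_mul, Finset.mul_sum]
  refine Finset.sum_congr rfl (fun i _ => ?_)
  rw [Matrix.smul_mul, Matrix.mul_smul, h.comm i j]

theorem sum_e {A : Fin 3 → Mat} (c : Fin 3 → ℝ) (i j : I) :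
    (∑ k, c k • A k) i j = ∑ k, c k * A k i j := by
  rw [Matrix.sum_apply]
  simp

/-- commutator equations -/
theorem comm_e {A B : Mat} (h : A * B = B * A) (i j : I) :
    A i (Sum.inl 0) * B (Sum.inl 0) j
    + A i (Sum.inl 1) * B (Sum.inl 1) j + A i (Sum.inl 2) * B (Sum.inl 2) j
    + A i (Sum.inl 3) * B (Sum.inl 3) j + A i o * B o j =
    B i (Sum.inl 0) * A (Sum.inl 0) j
    + B i (Sum.inl 1) * A (Sum.inl 1) j + B i (Sum.inl 2) * A (Sum.inl 2) j
    + B i (Sum.inl 3) * A (Sum.inl 3) j + B i o * A o j := by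
  rw [← mul_e, ← mul_e, h]

theorem eq_zero_of {A : Mat} (hA : IsSo A) (h01 : A (Sum.inl 0) (Sum.inl 1) = 0)
    (h02 : A (Sum.inl 0) (Sum.inl 2) = 0) (h03 : A (Sum.inl 0) (Sum.inl 3) = 0)
    (h12 : A (Sum.inl 1) (Sum.inl 2) = 0) (h13 : A (Sum.inl 1) (Sum.inl 3) = 0)
    (h23 : A (Sum.inl 2) (Sum.inl 3) = 0) (h0 : A (Sum.inl 0) o = 0) (h1 : A (Sum.inl 1) o = 0)
    (h2 : A (Sum.inl 2) o = 0) (h3 : A (Sum.inl 3) o = 0) : A = 0 := by
  obtain ⟨a, b, c, d, e, f, u, v, w, z, rfl⟩ := exists_mk hA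
  simp at h01 h02 h03 h12 h13 h23 h0 h1 h2 h3
  subst_vars
  apply ext_I
  · intro i j
    fin_cases i <;> fin_cases j <;> simp
  · intro i
    fin_cases i <;> simp
  · intro i
    fin_cases i <;> simp
  · simp

/-- no independent commuting family kills a timelike vector -/
theorem no_time {A : Fin 3 → Mat} (h : Fam A) (hk : ∀ i (k : Fin 4), A i (Sum.inl k) o = 0) : False := by
  have P := par (fun i => ![A i (Sum.inl 0) (Sum.inl 1) + A i (Sum.inl 2) (Sum.inl 3),
    A i (Sum.inl 0) (Sum.inl 2) - A i (Sum.inl 1) (Sum.inl 3),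
    A i (Sum.inl 0) (Sum.inl 3) + A i (Sum.inl 1) (Sum.inl 2)]) ?_
  have Q := par (fun i => ![A i (Sum.inl 0) (Sum.inl 1) - A i (Sum.inl 2) (Sum.inl 3),
    A i (Sum.inl 0) (Sum.inl 2) + A i (Sum.inl 1) (Sum.inl 3),
    A i (Sum.inl 0) (Sum.inl 3) - A i (Sum.inl 1) (Sum.inl 2)]) ?_
  · obtain ⟨n, s, hn⟩ := P
    obtain ⟨m, t, hm⟩ := Q
    obtain ⟨c, hc, h1, h2⟩ := exists_rel s t
    refine h.ne_zero hc ?_
    have hP : ∀ k, ∑ i, c i * (s i * n k) = 0 := fun k => by
      have : ∑ i, c i * (s i * n k) = (∑ i, c i * s i) * n k := by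
        rw [Finset.sum_mul]; exact Finset.sum_congr rfl (fun i _ => by ring)
      rw [this, h1, zero_mul]
    have hQ : ∀ k, ∑ i, c i * (t i * m k) = 0 := fun k => by
      have : ∑ i, c i * (t i * m k) = (∑ i, c i * t i) * m k := by
        rw [Finset.sum_mul]; exact Finset.sum_congr rfl (fun i _ => by ring)
      rw [this, h2, zero_mul]
    simp only [← hn] at hP
    simp only [← hm] at hQ
    have P0 := hP 0
    have P1 := hP 1
    have P2 := hP 2
    have Q0 := hQ 0
    have Q1 := hQ 1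
    have Q2 := hQ 2
    simp [Fin.sum_univ_three] at P0 P1 P2 Q0 Q1 Q2
    apply eq_zero_of (so_sum h.so c)
    all_goals
      rw [sum_e, Fin.sum_univ_three]
      first
      | (simp only [hk]; ring)
      | linarith
  · intro i j k l
    have h01 := comm_e (h.comm i j) (Sum.inl 0) (Sum.inl 1)
    have h02 := comm_e (h.comm i j) (Sum.inl 0) (Sum.inl 2)
    have h03 := comm_e (h.comm i j) (Sum.inl 0) (Sum.inl 3)
    have h12 := comm_e (h.comm i j) (Sum.inl 1) (Sum.inl 2)
    have h13 := comm_e (h.comm i j) (Sum.inl 1) (Sum.inl 3)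
    have h23 := comm_e (h.comm i j) (Sum.inl 2) (Sum.inl 3)
    have hi := hk i
    have hj := hk j
    obtain ⟨a, b, c, d, e, f, u, v, w, z, hAi⟩ := exists_mk (h.so i)
    obtain ⟨a', b', c', d', e', f', u', v', w', z', hAj⟩ := exists_mk (h.so j)
    rw [hAi] at hi
    rw [hAj] at hj
    have i0 := hi 0
    have i1 := hi 1
    have i2 := hi 2
    have i3 := hi 3
    have j0 := hj 0
    have j1 := hj 1
    have j2 := hj 2
    have j3 := hj 3
    rw [hAi, hAj] at h01 h02 h03 h12 h13 h23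
    simp at i0 i1 i2 i3 j0 j1 j2 j3
    subst_vars
    simp at h01 h02 h03 h12 h13 h23
    simp only [hAi, hAj]
    fin_cases k <;> fin_cases l <;> simp <;> linarith
  · intro i j k l
    have h01 := comm_e (h.comm i j) (Sum.inl 0) (Sum.inl 1)
    have h02 := comm_e (h.comm i j) (Sum.inl 0) (Sum.inl 2)
    have h03 := comm_e (h.comm i j) (Sum.inl 0) (Sum.inl 3)
    have h12 := comm_e (h.comm i j) (Sum.inl 1) (Sum.inl 2)
    have h13 := comm_e (h.comm i j) (Sum.inl 1) (Sum.inl 3)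
    have h23 := comm_e (h.comm i j) (Sum.inl 2) (Sum.inl 3)
    have hi := hk i
    have hj := hk j
    obtain ⟨a, b, c, d, e, f, u, v, w, z, hAi⟩ := exists_mk (h.so i)
    obtain ⟨a', b', c', d', e', f', u', v', w', z', hAj⟩ := exists_mk (h.so j)
    rw [hAi] at hi
    rw [hAj] at hj
    have i0 := hi 0
    have i1 := hi 1
    have i2 := hi 2
    have i3 := hi 3
    have j0 := hj 0
    have j1 := hj 1
    have j2 := hj 2
    have j3 := hj 3
    rw [hAi, hAj] at h01 h02 h03 h12 h13 h23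
    simp at i0 i1 i2 i3 j0 j1 j2 j3
    subst_vars
    simp at h01 h02 h03 h12 h13 h23
    simp only [hAi, hAj]
    fin_cases k <;> fin_cases l <;> simp <;> linarith


/-- no independent commuting family kills a spacelike vector -/
theorem no_space {A : Fin 3 → Mat} (h : Fam A) (hk : ∀ i (k : I), A i k (Sum.inl 0) = 0) : False := by
  have P := par (K := ℂ) (fun i => ![(A i (Sum.inl 2) (Sum.inl 3) : ℂ) + Complex.I * A i (Sum.inl 1) o,
    -(A i (Sum.inl 1) (Sum.inl 3) : ℂ) + Complex.I * A i (Sum.inl 2) o,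
    (A i (Sum.inl 1) (Sum.inl 2) : ℂ) + Complex.I * A i (Sum.inl 3) o]) ?_
  · obtain ⟨n, s, hn⟩ := P
    obtain ⟨c, hc, h1, h2⟩ := exists_rel (fun i => (s i).re) (fun i => (s i).im)
    refine h.ne_zero hc ?_
    have hcs : ∑ i, (c i : ℂ) * s i = 0 := by
      apply Complex.ext
      · simpa using h1
      · simpa using h2
    have hP : ∀ k, ∑ i, (c i : ℂ) * (s i * n k) = 0 := fun k => by
      have : ∑ i, (c i : ℂ) * (s i * n k) = (∑ i, (c i : ℂ) * s i) * n k := by
        rw [Finset.sum_mul]; exact Finset.sum_congr rfl (fun i _ => by ring)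
      rw [this, hcs, zero_mul]
    simp only [← hn] at hP
    have P0 := hP 0
    have P1 := hP 1
    have P2 := hP 2
    simp only [Fin.sum_univ_three] at P0 P1 P2
    have P0r := congrArg Complex.re P0
    have P0i := congrArg Complex.im P0
    have P1r := congrArg Complex.re P1
    have P1i := congrArg Complex.im P1
    have P2r := congrArg Complex.re P2
    have P2i := congrArg Complex.im P2
    simp at P0r P0i P1r P1i P2r P2i
    have k1 : ∀ i, A i (Sum.inl 0) (Sum.inl 1) = 0 := fun i => by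
      have := so_ss (h.so i) 0 1
      rw [hk] at this; linarith
    have k2 : ∀ i, A i (Sum.inl 0) (Sum.inl 2) = 0 := fun i => by
      have := so_ss (h.so i) 0 2
      rw [hk] at this; linarith
    have k3 : ∀ i, A i (Sum.inl 0) (Sum.inl 3) = 0 := fun i => by
      have := so_ss (h.so i) 0 3
      rw [hk] at this; linarith
    have k0 : ∀ i, A i (Sum.inl 0) o = 0 := fun i => by
      have := so_so (h.so i) 0
      rw [hk] at this; linarith
    apply eq_zero_of (so_sum h.so c)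
    all_goals
      rw [sum_e, Fin.sum_univ_three]
      first
      | (simp only [k1, k2, k3, k0]; ring)
      | linarith
  · intro i j k l
    have h12 := comm_e (h.comm i j) (Sum.inl 1) (Sum.inl 2)
    have h13 := comm_e (h.comm i j) (Sum.inl 1) (Sum.inl 3)
    have h23 := comm_e (h.comm i j) (Sum.inl 2) (Sum.inl 3)
    have h1 := comm_e (h.comm i j) (Sum.inl 1) o
    have h2 := comm_e (h.comm i j) (Sum.inl 2) o
    have h3 := comm_e (h.comm i j) (Sum.inl 3) o
    have hi := hk i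
    have hj := hk j
    obtain ⟨a, b, c, d, e, f, u, v, w, z, hAi⟩ := exists_mk (h.so i)
    obtain ⟨a', b', c', d', e', f', u', v', w', z', hAj⟩ := exists_mk (h.so j)
    rw [hAi] at hi
    rw [hAj] at hj
    have i0 := hi o
    have i1 := hi (Sum.inl 1)
    have i2 := hi (Sum.inl 2)
    have i3 := hi (Sum.inl 3)
    have j0 := hj o
    have j1 := hj (Sum.inl 1)
    have j2 := hj (Sum.inl 2)
    have j3 := hj (Sum.inl 3)
    rw [hAi, hAj] at h1 h2 h3 h12 h13 h23
    simp at i0 i1 i2 i3 j0 j1 j2 j3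
    subst_vars
    simp at h1 h2 h3 h12 h13 h23
    simp only [hAi, hAj]
    fin_cases k <;> fin_cases l <;> simp [Complex.ext_iff] <;> (try constructor) <;> linarith

/-- normal form of commuting families fixing the null line of `e₀ + e_o` -/
theorem null_form {A : Fin 3 → Mat} (h : Fam A)
    (hk : ∀ i, ∃ μ : ℝ, A i *ᵥ (Sum.elim ![1, 0, 0, 0] (fun _ => 1)) = μ • (Sum.elim ![1, 0, 0, 0] (fun _ => 1))) :
    ∀ i, ∃ v w z : ℝ, A i = mk v w z 0 0 0 0 v w z := by
  have hf : ∀ i, ∃ v w z d e f μ : ℝ, A i = mk v w z d e f μ v w z := by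
    intro i
    obtain ⟨μ, hμ⟩ := hk i
    obtain ⟨a, b, c, d, e, f, u, v, w, z, hAi⟩ := exists_mk (h.so i)
    rw [hAi] at hμ
    have m1 := congrFun hμ (Sum.inl 1)
    have m2 := congrFun hμ (Sum.inl 2)
    have m3 := congrFun hμ (Sum.inl 3)
    rw [mulVec_e] at m1 m2 m3
    simp at m1 m2 m3
    refine ⟨v, w, z, d, e, f, u, ?_⟩
    rw [hAi]
    have e1 : a = v := by linarith
    have e2 : b = w := by linarith
    have e3 : c = z := by linarith
    rw [e1, e2, e3]
  choose v w z d e f μ hA using hf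
  -- parallel rotation parts
  have hc12 : ∀ i j, (f i) * (-(e j)) - (-(e i)) * f j = 0 := by
    intro i j
    have := comm_e (h.comm i j) (Sum.inl 1) (Sum.inl 2)
    rw [hA i, hA j] at this
    simp at this; linarith
  have hc13 : ∀ i j, (f i) * (d j) - (d i) * f j = 0 := by
    intro i j
    have := comm_e (h.comm i j) (Sum.inl 1) (Sum.inl 3)
    rw [hA i, hA j] at this
    simp at this; linarith
  have hc23 : ∀ i j, (-(e i)) * (d j) - (d i) * (-(e j)) = 0 := by
    intro i j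
    have := comm_e (h.comm i j) (Sum.inl 2) (Sum.inl 3)
    rw [hA i, hA j] at this
    simp at this; linarith
  obtain ⟨n, s, hn⟩ := par (fun i => ![f i, -(e i), d i]) (by
    intro i j k l
    have h1 := hc12 i j
    have h2 := hc13 i j
    have h3 := hc23 i j
    fin_cases k <;> fin_cases l <;> simp <;> linarith)
  have n0 : ∀ i, f i = s i * n 0 := fun i => by simpa using hn i 0
  have n1 : ∀ i, - e i = s i * n 1 := fun i => by simpa using hn i 1
  have n2 : ∀ i, d i = s i * n 2 := fun i => by simpa using hn i 2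
  -- key relation for a pure translation commuting with `A i`
  have key : ∀ i (V W Z : ℝ), mk V W Z 0 0 0 0 V W Z * A i = A i * mk V W Z 0 0 0 0 V W Z →
      μ i * V - ((-(e i)) * Z - (d i) * W) = 0 ∧ μ i * W - (d i * V - f i * Z) = 0 ∧
      μ i * Z - (f i * W - (-(e i)) * V) = 0 := by
    intro i V W Z hc
    have m1 := comm_e hc (Sum.inl 0) (Sum.inl 1)
    have m2 := comm_e hc (Sum.inl 0) (Sum.inl 2)
    have m3 := comm_e hc (Sum.inl 0) (Sum.inl 3)
    rw [hA i] at m1 m2 m3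
    simp at m1 m2 m3
    refine ⟨by linarith, by linarith, by linarith⟩
  have X : ∀ c : Fin 3 → ℝ, ∑ i, c i * μ i = 0 → ∑ i, c i * s i = 0 → ∃ V W Z : ℝ,
      ∑ i, c i • A i = mk V W Z 0 0 0 0 V W Z ∧ V = ∑ i, c i * v i ∧ W = ∑ i, c i * w i ∧
      Z = ∑ i, c i * z i := by
    intro c h1 h2
    refine ⟨∑ i, c i * v i, ∑ i, c i * w i, ∑ i, c i * z i, ?_, rfl, rfl, rfl⟩
    have sd : ∑ i, c i * d i = 0 := by
      have : ∑ i, c i * d i = (∑ i, c i * s i) * n 2 := by
        rw [Finset.sum_mul]; exact Finset.sum_congr rfl (fun i _ => by rw [n2]; ring)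
      rw [this, h2, zero_mul]
    have se : ∑ i, c i * e i = 0 := by
      have : ∑ i, c i * e i = -(∑ i, c i * s i) * n 1 := by
        rw [← Finset.sum_neg_distrib, Finset.sum_mul]
        exact Finset.sum_congr rfl (fun i _ => by
          have := n1 i
          have h' : e i = - (s i * n 1) := by linarith
          rw [h']; ring)
      rw [this, h2, neg_zero, zero_mul]
    have sf : ∑ i, c i * f i = 0 := by
      have : ∑ i, c i * f i = (∑ i, c i * s i) * n 0 := by
        rw [Finset.sum_mul]; exact Finset.sum_congr rfl (fun i _ => by rw [n0]; ring)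
      rw [this, h2, zero_mul]
    obtain ⟨a1, b1, c1, d1, e1, f1, u1, v1, w1, z1, hX⟩ := exists_mk (so_sum h.so c)
    have E : ∀ i j, mk a1 b1 c1 d1 e1 f1 u1 v1 w1 z1 i j = ∑ k, c k * A k i j := by
      intro i j
      rw [← hX, sum_e]
    have E01 := E (Sum.inl 0) (Sum.inl 1)
    have E02 := E (Sum.inl 0) (Sum.inl 2)
    have E03 := E (Sum.inl 0) (Sum.inl 3)
    have E12 := E (Sum.inl 1) (Sum.inl 2)
    have E13 := E (Sum.inl 1) (Sum.inl 3)
    have E23 := E (Sum.inl 2) (Sum.inl 3)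
    have E0 := E (Sum.inl 0) o
    have E1 := E (Sum.inl 1) o
    have E2 := E (Sum.inl 2) o
    have E3 := E (Sum.inl 3) o
    simp only [hA, mk_01, mk_02, mk_03, mk_12, mk_13, mk_23, mk_04, mk_14, mk_24, mk_34] at E01 E02 E03 E12 E13 E23 E0 E1 E2 E3
    rw [hX, E01, E02, E03, E12, E13, E23, E0, E1, E2, E3, sd, se, sf, h1]
  have hμ : ∀ i, μ i = 0 := by
    by_contra hne
    push Not at hne
    obtain ⟨i0, hi0⟩ := hne
    obtain ⟨c, hc, h1, h2⟩ := exists_rel μ s
    obtain ⟨V, W, Z, hX, -⟩ := X c h1 h2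
    refine h.ne_zero hc ?_
    have hcm := h.comm_sum c i0
    rw [hX] at hcm
    obtain ⟨k1, k2, k3⟩ := key i0 V W Z hcm
    have : μ i0 * (V ^ 2 + W ^ 2 + Z ^ 2) = 0 := by linear_combination V * k1 + W * k2 + Z * k3
    have h4 : V ^ 2 + W ^ 2 + Z ^ 2 = 0 := (mul_eq_zero.1 this).resolve_left hi0
    have hV : V = 0 := by nlinarith [sq_nonneg V, sq_nonneg W, sq_nonneg Z]
    have hW : W = 0 := by nlinarith [sq_nonneg V, sq_nonneg W, sq_nonneg Z]
    have hZ : Z = 0 := by nlinarith [sq_nonneg V, sq_nonneg W, sq_nonneg Z]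
    have hso := so_sum h.so c
    rw [hX, hV, hW, hZ] at hso
    rw [hX, hV, hW, hZ]
    apply eq_zero_of hso <;> simp
  have hb : ∀ i, f i = 0 ∧ e i = 0 ∧ d i = 0 := by
    by_contra hne
    push Not at hne
    obtain ⟨i0, hi0⟩ := hne
    obtain ⟨c, hc, h1, h2⟩ := exists_rel s (fun i => f i0 * v i + (-(e i0)) * w i + d i0 * z i)
    obtain ⟨V, W, Z, hX, hV, hW, hZ⟩ := X c (by simp [hμ]) h1
    have hdot : f i0 * V + (-(e i0)) * W + d i0 * Z = 0 := by
      rw [hV, hW, hZ, ← h2, Finset.mul_sum, Finset.mul_sum, Finset.mul_sum, ← Finset.sum_add_distrib,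
        ← Finset.sum_add_distrib]
      exact Finset.sum_congr rfl (fun i _ => by ring)
    have hcm := h.comm_sum c i0
    rw [hX] at hcm
    obtain ⟨k1, k2, k3⟩ := key i0 V W Z hcm
    rw [hμ] at k1 k2 k3
    have hB : 0 < f i0 ^ 2 + e i0 ^ 2 + d i0 ^ 2 := by
      by_contra hle
      push Not at hle
      have a1 : f i0 = 0 := by nlinarith [sq_nonneg (f i0), sq_nonneg (e i0), sq_nonneg (d i0)]
      have a2 : e i0 = 0 := by nlinarith [sq_nonneg (f i0), sq_nonneg (e i0), sq_nonneg (d i0)]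
      have a3 : d i0 = 0 := by nlinarith [sq_nonneg (f i0), sq_nonneg (e i0), sq_nonneg (d i0)]
      exact hi0 a1 a2 a3
    have hprod : (f i0 ^ 2 + e i0 ^ 2 + d i0 ^ 2) * (V ^ 2 + W ^ 2 + Z ^ 2) = 0 := by
      have e1 : (-(e i0)) * Z - (d i0) * W = 0 := by linarith
      have e2 : d i0 * V - f i0 * Z = 0 := by linarith
      have e3 : f i0 * W - (-(e i0)) * V = 0 := by linarith
      linear_combination (f i0 * V + (-(e i0)) * W + d i0 * Z) * hdot + ((-(e i0)) * Z - (d i0) * W) * e1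
        + (d i0 * V - f i0 * Z) * e2 + (f i0 * W - (-(e i0)) * V) * e3
    have h4 : V ^ 2 + W ^ 2 + Z ^ 2 = 0 := (mul_eq_zero.1 hprod).resolve_left hB.ne'
    have hV : V = 0 := by nlinarith [sq_nonneg V, sq_nonneg W, sq_nonneg Z]
    have hW : W = 0 := by nlinarith [sq_nonneg V, sq_nonneg W, sq_nonneg Z]
    have hZ : Z = 0 := by nlinarith [sq_nonneg V, sq_nonneg W, sq_nonneg Z]
    refine h.ne_zero hc ?_
    have hso := so_sum h.so c
    rw [hX, hV, hW, hZ] at hso
    rw [hX, hV, hW, hZ]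
    apply eq_zero_of hso <;> simp
  intro i
  refine ⟨v i, w i, z i, ?_⟩
  rw [hA i, hμ i, (hb i).1, (hb i).2.1, (hb i).2.2]

end Pool.Agent.helper21.WB.Z2
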